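import Pool.Agent.LibCC.Machine
import Pool.Agent.LibCC89.Word

/-!
Calculus of Boolean functions computed by levelled circuits of polynomial width and
polylogarithmic depth times a parameter.
-/

namespace Pool.Agent.LibCCQ

open Pool.Agent.LibCC Pool.Agent.LibCC89

variable {α β γ δ : Type}

/-! ### Levels -/

theorem lev_mono {W W' d : ℕ} {f : (α → Bool) → β → Bool} (hW : W ≤ W') (h : Lev α W d β f) :
    Lev α W' d β f := by
  induction h with
  | base => exact Lev.base
  | step h γ hγ G ih => exact Lev.step ih γ (hγ.trans hW) G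

/-- Renaming of the input bits. -/
theorem lev_inputs {α' : Type} {W d : ℕ} (φ : α' → α) {g : (α' → Bool) → γ → Bool}
    (h : Lev α' W d γ g) : Lev α W d γ (fun x => g (fun a => x (φ a))) := by
  induction h with
  | base => exact Lev.base
  | @step d β f h γ _ hγ G ih =>
    have h1 := Lev.step ih γ hγ (fun c => (G c).map (Sum.map φ id))
    have h2 : (fun (x : α → Bool) (c : γ) => (G c).eval
        (Sum.elim (fun a => x (φ a)) (f (fun a => x (φ a))))) =
        fun (x : α → Bool) (c : γ) => ((G c).map (Sum.map φ id)).eval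
          (Sum.elim x (f (fun a => x (φ a)))) := by
      funext x c
      rw [BGate.eval_map]
      congr 1
      funext a
      cases a <;> rfl
    change Lev α W (d + 1) γ (fun (x : α → Bool) (c : γ) => (G c).eval
        (Sum.elim (fun a => x (φ a)) (f (fun a => x (φ a)))))
    rw [h2]
    exact h1

/-- Selection of output bits. -/
theorem lev_sel [Fintype γ] {W d : ℕ} {f : (α → Bool) → β → Bool} (h : Lev α W d β f)
    (hγ : Fintype.card γ ≤ W) (φ : γ → β) : Lev α W (d + 1) γ (fun x c => f x (φ c)) :=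
  Lev.step h γ hγ (fun c => .wire (Sum.inr (φ c)))

/-- A second computation that reads the input bits and the results of the first one. The results
of the first one are kept. -/
theorem lev_next [Fintype β] {W W' W'' d d' : ℕ} {f : (α → Bool) → β → Bool}
    {g : (α ⊕ β → Bool) → γ → Bool} (hf : Lev α W d β f) (hg : Lev (α ⊕ β) W' d' γ g)
    (hW : W ≤ W'') (hW' : Fintype.card β + W' ≤ W'') :
    Lev α W'' (d + d' + 1) (β ⊕ γ) (fun x => Sum.elim (f x) (g (Sum.elim x (f x)))) := by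
  induction hg with
  | base =>
    have h1 := Lev.step (lev_mono hW hf) (β ⊕ Empty) (by
      rw [Fintype.card_sum, Fintype.card_empty]
      omega)
      (fun c => match c with
        | Sum.inl b => .wire (Sum.inr b)
        | Sum.inr e => e.elim)
    have h2 : (fun (x : α → Bool) => Sum.elim (f x) (fun e : Empty => e.elim)) =
        fun (x : α → Bool) (c : β ⊕ Empty) => ((fun c => match c with
        | Sum.inl b => BGate.wire (Sum.inr b)
        | Sum.inr e => e.elim : β ⊕ Empty → BGate (α ⊕ β)) c).eval (Sum.elim x (f x)) := by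
      funext x c
      rcases c with b | e
      · rfl
      · exact e.elim
    change Lev α W'' (d + 0 + 1) (β ⊕ Empty)
      (fun (x : α → Bool) => Sum.elim (f x) (fun e : Empty => e.elim))
    rw [h2]
    exact h1
  | @step d' δ g h γ _ hγ G ih =>
    have h1 := Lev.step ih (β ⊕ γ) (by
      rw [Fintype.card_sum]
      omega)
      (fun c => match c with
        | Sum.inl b => .wire (Sum.inr (Sum.inl b))
        | Sum.inr e => (G e).map (fun s => match s with
          | Sum.inl (Sum.inl a) => Sum.inl a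
          | Sum.inl (Sum.inr b) => Sum.inr (Sum.inl b)
          | Sum.inr c => Sum.inr (Sum.inr c)))
    have h2 : (fun (x : α → Bool) => Sum.elim (f x) (fun c => (G c).eval
          (Sum.elim (Sum.elim x (f x)) (g (Sum.elim x (f x)))))) =
        fun (x : α → Bool) (c : β ⊕ γ) => ((fun c => match c with
        | Sum.inl b => .wire (Sum.inr (Sum.inl b))
        | Sum.inr e => (G e).map (fun s => match s with
          | Sum.inl (Sum.inl a) => Sum.inl a
          | Sum.inl (Sum.inr b) => Sum.inr (Sum.inl b)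
          | Sum.inr c => Sum.inr (Sum.inr c)) : β ⊕ γ → BGate (α ⊕ (β ⊕ δ))) c).eval
            (Sum.elim x (Sum.elim (f x) (g (Sum.elim x (f x))))) := by
      funext x c
      rcases c with b | e
      · rfl
      · simp only [Sum.elim_inr]
        rw [BGate.eval_map]
        congr 1
        funext s
        rcases s with (a | b) | c <;> rfl
    change Lev α W'' (d + (d' + 1) + 1) (β ⊕ γ) (fun (x : α → Bool) => Sum.elim (f x)
      (fun c => (G c).eval (Sum.elim (Sum.elim x (f x)) (g (Sum.elim x (f x))))))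
    rw [h2]
    exact h1

/-- Composition. -/
theorem lev_comp [Fintype β] [Fintype γ] {W W' W'' d d' : ℕ} {f : (α → Bool) → β → Bool}
    {g : (β → Bool) → γ → Bool} (hf : Lev α W d β f) (hg : Lev β W' d' γ g)
    (hW : W ≤ W'') (hW' : Fintype.card β + W' ≤ W'') (hγ : Fintype.card γ ≤ W'') :
    Lev α W'' (d + d' + 2) γ (fun x => g (f x)) := by
  have h1 := lev_next hf (lev_inputs (α := α ⊕ β) Sum.inr hg) hW hW'
  exact lev_sel h1 hγ Sum.inr

/-- Pairs. -/
theorem lev_pair [Fintype β] {W W' W'' d d' : ℕ} {f : (α → Bool) → β → Bool}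
    {g : (α → Bool) → γ → Bool} (hf : Lev α W d β f) (hg : Lev α W' d' γ g)
    (hW : W ≤ W'') (hW' : Fintype.card β + W' ≤ W'') :
    Lev α W'' (d + d' + 1) (β ⊕ γ) (fun x => Sum.elim (f x) (g x)) :=
  lev_next hf (lev_inputs (α := α ⊕ β) Sum.inl hg) hW hW'

theorem lev_zero {W : ℕ} {f : (α → Bool) → β → Bool} (h : Lev α W 0 β f) : IsEmpty β := by
  cases h
  infer_instance

theorem lev_succ {W d : ℕ} {f : (α → Bool) → β → Bool} (h : Lev α W (d + 1) β f) :
    ∃ (β' : Type) (f' : (α → Bool) → β' → Bool) (G : β → BGate (α ⊕ β')),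
      Lev α W d β' f' ∧ (Finite β ∧ Nat.card β ≤ W) ∧
        ∀ x b, f x b = (G b).eval (Sum.elim x (f' x)) := by
  cases h with
  | @step _ β' f' h' _ inst hγ G =>
    exact ⟨β', f', G, h', ⟨Finite.of_fintype β, by rw [Nat.card_eq_fintype_card]; exact hγ⟩,
      fun _ _ => rfl⟩

/-- Parallel computations. -/
theorem lev_par {ι : Type} [Fintype ι] {W d : ℕ} {β : ι → Type}
    {f : ∀ i, (α → Bool) → β i → Bool} (h : ∀ i, Lev α W d (β i) (f i)) :
    Lev α (Fintype.card ι * W) (d + 1) (Σ i, β i) (fun x p => f p.1 x p.2) := by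
  classical
  induction d generalizing β with
  | zero =>
    have he : IsEmpty (Σ i, β i) := ⟨fun p => (lev_zero (h p.1)).elim p.2⟩
    let inst : Fintype (Σ i, β i) := Fintype.ofIsEmpty
    have h1 := Lev.step (Lev.base (α := α) (W := Fintype.card ι * W)) (Σ i, β i)
      (by simp) (fun p => he.elim p)
    have h2 : (fun (x : α → Bool) (p : Σ i, β i) => f p.1 x p.2) =
        fun (x : α → Bool) (p : Σ i, β i) => ((he.elim p : BGate (α ⊕ Empty))).eval
          (Sum.elim x (fun e : Empty => e.elim)) := by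
      funext x p
      exact he.elim p
    rw [h2]
    exact h1
  | succ d ih =>
    choose β' f' G h1 h2 h3 using fun i => lev_succ (h i)
    have h4 := ih h1
    have : ∀ i, Finite (β i) := fun i => (h2 i).1
    let inst : ∀ i, Fintype (β i) := fun i => Fintype.ofFinite _
    have hc : Fintype.card (Σ i, β i) ≤ Fintype.card ι * W := by
      rw [Fintype.card_sigma, ← smul_eq_mul, ← Finset.card_univ, ← Finset.sum_const]
      apply Finset.sum_le_sum
      intro i _
      have := (h2 i).2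
      rwa [Nat.card_eq_fintype_card] at this
    have h5 := Lev.step h4 (Σ i, β i) hc
      (fun p => (G p.1 p.2).map (Sum.map id (Sigma.mk p.1)))
    refine Lev.congr h5 (fun x p => ?_)
    rw [BGate.eval_map, h3]
    congr 1
    funext s
    rcases s with a | b <;> rfl

/-- Parallel computations with the same type of results. -/
theorem lev_par' {ι : Type} [Fintype ι] [Fintype β] {W d : ℕ}
    {f : ι → (α → Bool) → β → Bool} (h : ∀ i, Lev α W d β (f i)) (hβ : Fintype.card β ≤ W) :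
    Lev α (Fintype.card ι * W) (d + 2) (ι × β) (fun x p => f p.1 x p.2) := by
  have h1 := lev_par h
  refine Lev.congr (lev_sel h1 (γ := ι × β) ?_ (fun p => ⟨p.1, p.2⟩)) (fun x p => rfl)
  rw [Fintype.card_prod]
  exact Nat.mul_le_mul_left _ hβ

/-! ### Formulas -/

theorem fd_inputs {k : ℕ} (φ : β → α) {f : (β → Bool) → Bool} (h : FD k f) :
    FD k (fun x : α → Bool => f (fun b => x (φ b))) := by
  induction k generalizing f with
  | zero =>
    obtain ⟨G, hG⟩ := h
    exact ⟨G.map φ, fun x => by rw [BGate.eval_map]; exact hG _⟩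
  | succ k ih =>
    obtain ⟨G, f', hf', hG⟩ := h
    exact ⟨G, fun i x => f' i (fun b => x (φ b)), fun i => ih (hf' i), fun x => hG _⟩

/-- A layer of formulas in the input bits. -/
theorem lev_fd [Fintype γ] {k W : ℕ} (F : γ → (α → Bool) → Bool) (hF : ∀ c, FD k (F c))
    (hW : Fintype.card γ * 2 ^ k ≤ W) : Lev α W (k + 1) γ (fun x c => F c x) := by
  have h1 := Lev.formula (α := α) (β := Empty) (d := 0) (k := k)
    (fun c (y : α ⊕ Empty → Bool) => F c (fun a => y (Sum.inl a)))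
    (fun c => fd_inputs Sum.inl (hF c)) hW Lev.base
  rw [Nat.zero_add] at h1
  exact Lev.congr h1 (fun x c => rfl)

/-! ### The calculus -/

/-- `f` is computed in depth at most `c * l ^ c * D` and width `2 ^ (c * l)`. -/
def Cp (c l D : ℕ) {α β : Type} (f : (α → Bool) → β → Bool) : Prop :=
  ∃ d, d ≤ c * l ^ c * D ∧ Lev α (2 ^ (c * l)) d β f

theorem pow_mul_mono {c c' l D D' : ℕ} (hl : 1 ≤ l) (hc : c ≤ c') (hD : D ≤ D') :
    c * l ^ c * D ≤ c' * l ^ c' * D' :=
  Nat.mul_le_mul (Nat.mul_le_mul hc (Nat.pow_le_pow_right hl hc)) hD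

theorem Cp.mono {c c' l D D' : ℕ} {f : (α → Bool) → β → Bool} (h : Cp c l D f) (hl : 1 ≤ l)
    (hc : c ≤ c') (hD : D ≤ D') : Cp c' l D' f := by
  obtain ⟨d, hd, h⟩ := h
  exact ⟨d, hd.trans (pow_mul_mono hl hc hD),
    lev_mono (Nat.pow_le_pow_right (by norm_num) (Nat.mul_le_mul_right _ hc)) h⟩

theorem Cp.congr {c l D : ℕ} {f g : (α → Bool) → β → Bool} (h : Cp c l D f)
    (hfg : ∀ x b, f x b = g x b) : Cp c l D g := by
  obtain ⟨d, hd, h⟩ := h
  exact ⟨d, hd, Lev.congr h (fun x b => (hfg x b).symm)⟩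

theorem Cp.inputs {c l D : ℕ} {α' : Type} (φ : α' → α) {g : (α' → Bool) → γ → Bool}
    (h : Cp c l D g) : Cp c l D (fun x : α → Bool => g (fun a => x (φ a))) := by
  obtain ⟨d, hd, h⟩ := h
  exact ⟨d, hd, lev_inputs φ h⟩

/-- Formulas of depth `c * l`. -/
theorem Cp.fd [Fintype γ] {c l D k : ℕ} (hl : 1 ≤ l) (hD : 1 ≤ D)
    (F : γ → (α → Bool) → Bool) (hF : ∀ a, FD k (F a)) (hk : k ≤ c * l)
    (hγ : Fintype.card γ ≤ 2 ^ (c * l)) : Cp (2 * c + 2) l D (fun x a => F a x) := by
  refine ⟨k + 1, ?_, lev_fd F hF ?_⟩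
  · have h1 : l ≤ l ^ (2 * c + 2) := Nat.le_self_pow (by omega) l
    calc k + 1 ≤ (2 * c + 2) * l * 1 := by nlinarith
      _ ≤ (2 * c + 2) * l ^ (2 * c + 2) * D :=
        Nat.mul_le_mul (Nat.mul_le_mul_left _ h1) hD
  · calc Fintype.card γ * 2 ^ k ≤ 2 ^ (c * l) * 2 ^ (c * l) :=
        Nat.mul_le_mul hγ (Nat.pow_le_pow_right (by norm_num) hk)
      _ = 2 ^ (c * l + c * l) := by rw [pow_add]
      _ ≤ 2 ^ ((2 * c + 2) * l) := Nat.pow_le_pow_right (by norm_num) (by nlinarith)

theorem width_add {b c c' l : ℕ} (hl : 1 ≤ l) (hb : b + c + 1 ≤ c') :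
    2 ^ (b * l) + 2 ^ (c * l) ≤ 2 ^ (c' * l) := by
  have h1 : 2 ^ (b * l) ≤ 2 ^ ((b + c) * l) :=
    Nat.pow_le_pow_right (by norm_num) (by nlinarith)
  have h2 : 2 ^ (c * l) ≤ 2 ^ ((b + c) * l) :=
    Nat.pow_le_pow_right (by norm_num) (by nlinarith)
  have h3 : 2 ^ ((b + c) * l + 1) ≤ 2 ^ (c' * l) :=
    Nat.pow_le_pow_right (by norm_num) (by nlinarith)
  rw [pow_succ] at h3
  omega

/-- A second computation reading the input bits and the results of the first one; all results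
are kept. -/
theorem Cp.next [Fintype β] {b c c' l D D' : ℕ} (hl : 1 ≤ l) (hD : 1 ≤ D)
    {f : (α → Bool) → β → Bool} {g : (α ⊕ β → Bool) → γ → Bool}
    (hf : Cp c l D f) (hg : Cp c' l D' g) (hβ : Fintype.card β ≤ 2 ^ (b * l)) :
    Cp (b + c + c' + 2) l (D + D')
      (fun x => Sum.elim (f x) (g (Sum.elim x (f x)))) := by
  obtain ⟨d, hd, hf⟩ := hf
  obtain ⟨d', hd', hg⟩ := hg
  refine ⟨d + d' + 1, ?_, lev_next hf hg ?_ ?_⟩
  · have h1 : c * l ^ c * D ≤ c * l ^ (b + c + c' + 2) * (D + D') :=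
      Nat.mul_le_mul (Nat.mul_le_mul_left _ (Nat.pow_le_pow_right hl (by omega))) (by omega)
    have h2 : c' * l ^ c' * D' ≤ c' * l ^ (b + c + c' + 2) * (D + D') :=
      Nat.mul_le_mul (Nat.mul_le_mul_left _ (Nat.pow_le_pow_right hl (by omega))) (by omega)
    have h3 : 1 ≤ l ^ (b + c + c' + 2) * (D + D') := Nat.mul_pos (Nat.pow_pos (by omega)) (by omega)
    have h4 : (b + c + c' + 2) * l ^ (b + c + c' + 2) * (D + D') =
        c * l ^ (b + c + c' + 2) * (D + D') + c' * l ^ (b + c + c' + 2) * (D + D') +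
          (b + 2) * (l ^ (b + c + c' + 2) * (D + D')) := by ring
    rw [h4]
    have h5 : 1 ≤ (b + 2) * (l ^ (b + c + c' + 2) * (D + D')) := Nat.mul_pos (by omega) h3
    omega
  · exact Nat.pow_le_pow_right (by norm_num) (Nat.mul_le_mul_right _ (by omega))
  · exact (Nat.add_le_add_right hβ _).trans (width_add hl (by omega))

theorem Cp.sel [Fintype γ] {b c l D : ℕ} (hl : 1 ≤ l) (hD : 1 ≤ D)
    {f : (α → Bool) → β → Bool} (h : Cp c l D f) (hγ : Fintype.card γ ≤ 2 ^ (b * l))
    (φ : γ → β) : Cp (b + c + 1) l D (fun x a => f x (φ a)) := by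
  obtain ⟨d, hd, h⟩ := h
  refine ⟨d + 1, ?_, lev_sel (lev_mono ?_ h) ?_ φ⟩
  · have h1 : c * l ^ c * D ≤ c * l ^ (b + c + 1) * D :=
      Nat.mul_le_mul_right _ (Nat.mul_le_mul_left _ (Nat.pow_le_pow_right hl (by omega)))
    have h3 : 1 ≤ l ^ (b + c + 1) * D := Nat.mul_pos (Nat.pow_pos (by omega)) (by omega)
    have h4 : (b + c + 1) * l ^ (b + c + 1) * D = c * l ^ (b + c + 1) * D +
        (b + 1) * (l ^ (b + c + 1) * D) := by ring
    rw [h4]
    have h5 : 1 ≤ (b + 1) * (l ^ (b + c + 1) * D) := Nat.mul_pos (by omega) h3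
    omega
  · exact Nat.pow_le_pow_right (by norm_num) (Nat.mul_le_mul_right _ (by omega))
  · exact hγ.trans (Nat.pow_le_pow_right (by norm_num) (Nat.mul_le_mul_right _ (by omega)))

theorem Cp.comp [Fintype β] [Fintype γ] {a b c c' l D D' : ℕ} (hl : 1 ≤ l) (hD : 1 ≤ D)
    {f : (α → Bool) → β → Bool} {g : (β → Bool) → γ → Bool}
    (hf : Cp c l D f) (hg : Cp c' l D' g) (hβ : Fintype.card β ≤ 2 ^ (b * l))
    (hγ : Fintype.card γ ≤ 2 ^ (a * l)) :
    Cp (a + b + c + c' + 3) l (D + D') (fun x => g (f x)) := by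
  have h1 := Cp.next (b := b) hl hD hf (hg.inputs (α := α ⊕ β) Sum.inr) hβ
  have h2 := h1.sel (b := a) hl (by omega) hγ Sum.inr
  refine (h2.congr (fun x p => rfl)).mono hl (by omega) le_rfl

theorem Cp.pair [Fintype β] {b c c' l D D' : ℕ} (hl : 1 ≤ l) (hD : 1 ≤ D)
    {f : (α → Bool) → β → Bool} {g : (α → Bool) → γ → Bool}
    (hf : Cp c l D f) (hg : Cp c' l D' g) (hβ : Fintype.card β ≤ 2 ^ (b * l)) :
    Cp (b + c + c' + 2) l (D + D') (fun x => Sum.elim (f x) (g x)) :=
  Cp.next (b := b) hl hD hf (hg.inputs (α := α ⊕ β) Sum.inl) hβ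

/-- Formulas in the results. -/
theorem Cp.layer [Fintype β] [Fintype γ] {a b c l D k : ℕ} (hl : 1 ≤ l) (hD : 1 ≤ D)
    {f : (α → Bool) → β → Bool} (hf : Cp c l D f) (hβ : Fintype.card β ≤ 2 ^ (b * l))
    (F : γ → (α ⊕ β → Bool) → Bool) (hF : ∀ e, FD k (F e)) (hk : k ≤ a * l)
    (hγ : Fintype.card γ ≤ 2 ^ (a * l)) :
    Cp (3 * a + b + c + 5) l (2 * D) (fun x e => F e (Sum.elim x (f x))) := by
  have h1 := Cp.fd (D := D) hl hD F hF hk hγ
  have h2 := Cp.next (b := b) hl hD hf h1 hβ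
  have h3 := h2.sel (b := a) hl (by omega) hγ Sum.inr
  exact (h3.congr (fun x p => rfl)).mono hl (by omega) (by omega)

/-- Parallel computations. -/
theorem Cp.par {ι : Type} [Fintype ι] [Fintype β] {a b c l D : ℕ} (hl : 1 ≤ l) (hD : 1 ≤ D)
    {f : ι → (α → Bool) → β → Bool} (h : ∀ i, Cp c l D (f i))
    (hβ : Fintype.card β ≤ 2 ^ (b * l)) (hι : Fintype.card ι ≤ 2 ^ (a * l)) :
    Cp (a + b + c + 2) l D (fun x (p : ι × β) => f p.1 x p.2) := by
  have h1 : ∀ i, Lev α (2 ^ ((b + c) * l)) (c * l ^ c * D) β (f i) := by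
    intro i
    obtain ⟨d, hd, hi⟩ := h i
    obtain ⟨k, hk⟩ := Nat.exists_eq_add_of_le hd
    rw [hk]
    exact Lev.wait (hβ.trans (Nat.pow_le_pow_right (by norm_num) (by nlinarith)))
      (lev_mono (Nat.pow_le_pow_right (by norm_num) (by nlinarith)) hi) k
  have h2 := lev_par' h1 (hβ.trans (Nat.pow_le_pow_right (by norm_num) (by nlinarith)))
  refine ⟨c * l ^ c * D + 2, ?_, lev_mono ?_ h2⟩
  · have e1 : c * l ^ c * D ≤ c * l ^ (a + b + c + 2) * D :=
      Nat.mul_le_mul_right _ (Nat.mul_le_mul_left _ (Nat.pow_le_pow_right hl (by omega)))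
    have e3 : 1 ≤ l ^ (a + b + c + 2) * D := Nat.mul_pos (Nat.pow_pos (by omega)) (by omega)
    have e4 : (a + b + c + 2) * l ^ (a + b + c + 2) * D = c * l ^ (a + b + c + 2) * D +
        (a + b) * (l ^ (a + b + c + 2) * D) + 2 * (l ^ (a + b + c + 2) * D) := by ring
    rw [e4]
    have e5 : 2 ≤ 2 * (l ^ (a + b + c + 2) * D) := by omega
    omega
  · calc Fintype.card ι * 2 ^ ((b + c) * l) ≤ 2 ^ (a * l) * 2 ^ ((b + c) * l) :=
        Nat.mul_le_mul_right _ hι
      _ = 2 ^ (a * l + (b + c) * l) := by rw [pow_add]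
      _ ≤ _ := Nat.pow_le_pow_right (by norm_num) (by nlinarith)

/-- Iteration of a map computed by formulas. -/
theorem lev_iter [Fintype β] {W d k : ℕ} {f : (α → Bool) → β → Bool} (h : Lev α W d β f)
    (F : β → (β → Bool) → Bool) (hF : ∀ e, FD k (F e)) (hW : Fintype.card β * 2 ^ k ≤ W)
    (j : ℕ) : Lev α W (d + j * (k + 1)) β (fun x => (fun y e => F e y)^[j] (f x)) := by
  induction j with
  | zero => simpa using h
  | succ j ih =>
    have h1 := Lev.formula (α := α) (k := k)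
      (fun c (y : α ⊕ β → Bool) => F c (fun b => y (Sum.inr b)))
      (fun c => fd_inputs Sum.inr (hF c)) hW ih
    have e1 : d + j * (k + 1) + k + 1 = d + (j + 1) * (k + 1) := by ring
    rw [e1] at h1
    refine Lev.congr h1 (fun x e => ?_)
    rw [Function.iterate_succ_apply']
    rfl

theorem fd_sq {ι : Type} [Fintype ι] {k : ℕ} (hι : Fintype.card ι ≤ 2 ^ k) (p : ι × ι) :
    FD (1 + k) (fun M : ι × ι → Bool => sq M p) := by
  have h1 := FD.exists (k := 1) k hι (fun (h : ι) (M : ι × ι → Bool) => M (p.1, h) && M (h, p.2))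
    (fun h => (FD.var 0 (p.1, h)).and (FD.var 0 (h, p.2)))
  exact h1.congr (fun M => rfl)

/-- Reachability: `j` squarings of a Boolean matrix. -/
theorem Cp.sq {ι : Type} [Fintype ι] {b c l D j : ℕ} (hl : 1 ≤ l) (hD : 1 ≤ D)
    {M : (α → Bool) → ι × ι → Bool} (hM : Cp c l D M) (hι : Fintype.card ι ≤ 2 ^ (b * l))
    (hj : j ≤ b * l) :
    Cp (3 * b + b * (b + 2) + c + 4) l D (fun x => (sq (ι := ι))^[j] (M x)) := by
  obtain ⟨d, hd, h⟩ := hM
  have hc2 : Fintype.card (ι × ι) * 2 ^ (1 + b * l) ≤ 2 ^ ((3 * b + b * (b + 2) + c + 4) * l) := by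
    rw [Fintype.card_prod]
    calc Fintype.card ι * Fintype.card ι * 2 ^ (1 + b * l)
        ≤ 2 ^ (b * l) * 2 ^ (b * l) * 2 ^ (1 + b * l) :=
          Nat.mul_le_mul_right _ (Nat.mul_le_mul hι hι)
      _ = 2 ^ (b * l + b * l + (1 + b * l)) := by
          rw [pow_add 2 (b * l + b * l), pow_add 2 (b * l) (b * l)]
      _ ≤ _ := Nat.pow_le_pow_right (by norm_num) (by nlinarith)
  have h1 := lev_iter (W := 2 ^ ((3 * b + b * (b + 2) + c + 4) * l))
    (lev_mono (Nat.pow_le_pow_right (by norm_num) (by nlinarith)) h)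
    (fun p M => LibCC.sq M p) (fun p => fd_sq hι p) hc2 j
  refine ⟨_, ?_, h1⟩
  set C := 3 * b + b * (b + 2) + c + 4 with hC
  have e1 : c * l ^ c * D ≤ c * l ^ C * D :=
    Nat.mul_le_mul_right _ (Nat.mul_le_mul_left _ (Nat.pow_le_pow_right hl (by omega)))
  have e2 : l ^ 2 ≤ l ^ C := Nat.pow_le_pow_right hl (by omega)
  have e3 : j * (1 + b * l + 1) ≤ b * (b + 2) * l ^ 2 := by
    calc j * (1 + b * l + 1) ≤ (b * l) * ((b + 2) * l) :=
          Nat.mul_le_mul hj (by nlinarith)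
      _ = _ := by ring
  have e4 : b * (b + 2) * l ^ 2 ≤ b * (b + 2) * (l ^ C * D) := by
    apply Nat.mul_le_mul_left
    calc l ^ 2 ≤ l ^ C := e2
      _ ≤ l ^ C * D := Nat.le_mul_of_pos_right _ hD
  have e5 : C * l ^ C * D = c * l ^ C * D + b * (b + 2) * (l ^ C * D) +
      (3 * b + 4) * (l ^ C * D) := by
    rw [hC]
    ring
  rw [e5]
  omega

/-- The final circuit. -/
theorem Cp.toCircuit {c l D : ℕ} {f : (α → Bool) → β → Bool} (h : Cp c l D f) :
    ∃ (d : ℕ) (B : BCircuit α (2 ^ (c * l))) (o : β → Fin (2 ^ (c * l))),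
      d ≤ c * l ^ c * D ∧ ∀ x b, B.level x d (o b) = f x b := by
  obtain ⟨d, hd, h⟩ := h
  obtain ⟨B, o, hB⟩ := h.toCircuit
  exact ⟨d, B, o, hd, hB⟩

end Pool.Agent.LibCCQ
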