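import Pool.Agent.LibCCQ.Calc

/-!
Comparator networks with lines, runs with cut ports, evaluators.
-/

namespace Pool.Agent.LibCCQ

open Pool.Agent.LibCC

/-- A comparator network with `m` steps on lines indexed by `ι`: step `t` puts the conjunction
of the bits of the lines `(N t).1`, `(N t).2` on the first and their disjunction on the second
line; if the two lines are equal nothing happens. -/
abbrev Net (ι : Type) (m : ℕ) : Type := Fin m → ι × ι

variable {ι : Type} [DecidableEq ι] {m : ℕ}

/-- One step; the port `c` of the comparator (`false` first, `true` second line) reads `r` if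
`b c` holds. -/
def stepW (b : Bool → Bool) (r : Bool) (s : ι × ι) (w : ι → Bool) (p : ι) : Bool :=
  if s.1 = s.2 then w p
  else if p = s.2 then (if b false then r else w s.1) || (if b true then r else w s.2)
  else if p = s.1 then (if b false then r else w s.1) && (if b true then r else w s.2)
  else w p

/-- The bits of the lines after `t` steps if the ports in `B` are cut and read `r`. -/
def cst (N : Net ι m) (B : Fin m × Bool → Bool) (r : Bool) (w : ι → Bool) : ℕ → ι → Bool
  | 0 => w
  | t + 1 => if h : t < m then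
      stepW (fun c => B (⟨t, h⟩, c)) r (N ⟨t, h⟩) (cst N B r w t) else cst N B r w t

/-- The bits of the lines after `t` steps. -/
def st (N : Net ι m) (w : ι → Bool) : ℕ → ι → Bool := cst N (fun _ => false) false w

/-- Bits describing a network and its input: which line is read by which port, and the bits of
the lines at the start. -/
abbrev NBit (ι : Type) (m : ℕ) : Type := (Fin m × Bool × ι) ⊕ ι

def enc (N : Net ι m) (w : ι → Bool) : NBit ι m → Bool
  | Sum.inl (t, false, p) => decide ((N t).1 = p)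
  | Sum.inl (t, true, p) => decide ((N t).2 = p)
  | Sum.inr p => w p

/-- One circuit of width `W` and depth `d` computes all runs of all networks. -/
def EvalAt (ι : Type) [DecidableEq ι] (m W d : ℕ) : Prop :=
  ∃ f : (NBit ι m → Bool) → Fin (m + 1) × ι → Bool,
    Lev (NBit ι m) W d (Fin (m + 1) × ι) f ∧
    ∀ (N : Net ι m) (w : ι → Bool) (t : Fin (m + 1)) (p : ι), f (enc N w) (t, p) = st N w t p

/-- A partial matching between slots and ports. -/
structure Slots {K : ℕ} (s : Fin K × (Fin m × Bool) → Bool) : Prop where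
  port : ∀ k p p', s (k, p) = true → s (k, p') = true → p = p'
  slot : ∀ k k' p, s (k, p) = true → s (k', p) = true → k = k'

/-- The ports that have a slot. -/
def cuts {K : ℕ} (s : Fin K × (Fin m × Bool) → Bool) (p : Fin m × Bool) : Bool :=
  decide (∃ k, s (k, p) = true)

/-- Results of the evaluation with cuts: the two runs and the slots of the cut ports. -/
abbrev CutOut (ι : Type) (m K : ℕ) : Type := (Bool × Fin (m + 1) × ι) ⊕ (Fin K × (Fin m × Bool))

/-- Interface of the random cuts: in depth `q` up to logarithms one finds a set of at most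
`K` cut ports, `K * q ^ 2 ≥ 16 * m`, and the two runs in which the cut ports read `0` and `1`. -/
def CutEval : Prop :=
  ∃ c : ℕ, ∀ (ι : Type) [Fintype ι] [DecidableEq ι] (m q l K : ℕ), 1 ≤ l → 1 ≤ q → q ≤ 2 ^ l →
    Fintype.card ι + m + 1 ≤ 2 ^ l → 16 * m ≤ K * q ^ 2 → K ≤ 2 ^ l →
    ∃ f : (NBit ι m → Bool) → CutOut ι m K → Bool, Cp c l q f ∧
      ∀ (N : Net ι m) (w : ι → Bool),
        Slots (fun a => f (enc N w) (Sum.inr a)) ∧
        ∀ (r : Bool) (t : Fin (m + 1)) (p : ι), f (enc N w) (Sum.inl (r, t, p)) =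
          cst N (cuts (fun a => f (enc N w) (Sum.inr a))) r w t p

/-- Part 2: order reduction. One evaluation of the matrix network (lines `ι × ι`, start
`[w a ≤ w b]`) certifies the order of all but half of the steps. -/
def Reduce : Prop :=
  ∃ c : ℕ, ∀ (ι : Type) [Fintype ι] [DecidableEq ι] (b q l W d : ℕ), 1 ≤ l → 1 ≤ q →
    q ≤ 2 ^ l → 64 * (Fintype.card ι + 1) ≤ q ^ 2 → Fintype.card ι + 2 * b + 1 ≤ 2 ^ l →
    EvalAt ι b W d → ∃ d' ≤ d + c * l ^ c * q, EvalAt ι (2 * b) (W + 2 ^ (c * l)) d'

/-- Part 3: the uncertain lines. -/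
def Halve : Prop :=
  ∃ c : ℕ, ∀ (ι : Type) [Fintype ι] [DecidableEq ι] (m q l K W d : ℕ), 1 ≤ l → 1 ≤ q →
    q ≤ 2 ^ l → Fintype.card ι + m + 1 ≤ 2 ^ l → 16 * m ≤ K * q ^ 2 → K ≤ 2 ^ l →
    EvalAt (Fin K) m W d →
    ∃ d' ≤ d + c * l ^ c * q, EvalAt ι m (W + 2 ^ (c * l)) d'

/-- Part 4: recursion. -/
def AllNets : Prop :=
  ∃ c : ℕ, ∀ n m q l : ℕ, 1 ≤ l → 1 ≤ q → q ≤ 2 ^ l → n + m + 1 ≤ 2 ^ l →
    (n ≤ q ^ 2 ∨ m ≤ q ^ 4) → ∃ d ≤ c * l ^ c * q, EvalAt (Fin n) m (2 ^ (c * l)) d

end Pool.Agent.LibCCQ
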