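import Pool.Agent.LibCCQ.Defs

/-!
Counting and reachability in the calculus.
-/

namespace Pool.Agent.LibCCQ

open Pool.Agent.LibCC Relation

variable {α β γ κ : Type}

/-- A constant factor in the depth parameter may be absorbed. -/
theorem Cp.two {c l D : ℕ} {f : (α → Bool) → β → Bool} (hl : 1 ≤ l) (h : Cp c l (2 * D) f) :
    Cp (2 * c) l D f := by
  obtain ⟨d, hd, h⟩ := h
  refine ⟨d, hd.trans ?_, lev_mono (Nat.pow_le_pow_right (by norm_num)
    (Nat.mul_le_mul_right _ (by omega))) h⟩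
  calc c * l ^ c * (2 * D) = 2 * c * l ^ c * D := by ring
    _ ≤ 2 * c * l ^ (2 * c) * D :=
      Nat.mul_le_mul_right _ (Nat.mul_le_mul_left _ (Nat.pow_le_pow_right hl (by omega)))

/-- Formulas in the results, without the factor two. -/
theorem Cp.form [Fintype β] [Fintype γ] {a b c l D k : ℕ} (hl : 1 ≤ l) (hD : 1 ≤ D)
    {f : (α → Bool) → β → Bool} (hf : Cp c l D f) (hβ : Fintype.card β ≤ 2 ^ (b * l))
    (F : γ → (α ⊕ β → Bool) → Bool) (hF : ∀ e, FD k (F e)) (hk : k ≤ a * l)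
    (hγ : Fintype.card γ ≤ 2 ^ (a * l)) :
    Cp (2 * (3 * a + b + c + 5)) l D (fun x e => F e (Sum.elim x (f x))) :=
  Cp.two hl (Cp.layer hl hD hf hβ F hF hk hγ)

/-- The number of true entries of a row. -/
def rowCount (M : ℕ) (y : κ × Fin M → Bool) (k : κ) : ℕ :=
  (Finset.univ.filter (fun t : Fin M => y (k, t) = true)).card

/-- One step of the counter. -/
def ctr (M : ℕ) [DecidableEq κ] (p q : κ × Fin (M + 1) × Fin (M + 1)) (y : κ × Fin M → Bool) : Bool :=
  decide (p = q) ||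
    (if h : (p.2.1 : ℕ) < M then
      ((decide (p.1 = q.1 ∧ (q.2.1 : ℕ) = p.2.1 + 1 ∧ (q.2.2 : ℕ) = p.2.2 + 1) && y (p.1, ⟨p.2.1, h⟩)) ||
        (decide (p.1 = q.1 ∧ (q.2.1 : ℕ) = p.2.1 + 1 ∧ (q.2.2 : ℕ) = p.2.2) && !(y (p.1, ⟨p.2.1, h⟩))))
      else false)

theorem fd_ctr (M : ℕ) [DecidableEq κ] (p q : κ × Fin (M + 1) × Fin (M + 1)) :
    FD 4 (ctr M p q) := by
  unfold ctr
  apply FD.or (k := 3) (FD.const 3 _)
  by_cases h : (p.2.1 : ℕ) < M
  · simp only [dif_pos h]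
    exact FD.or (k := 2) ((FD.const 1 _).and (FD.var 1 _)) ((FD.const 1 _).and
      ((FD.var 0 _).neg))
  · simp only [dif_neg h]
    exact FD.const 3 _

/-- Partial counts. -/
def pc (M : ℕ) (y : κ × Fin M → Bool) (k : κ) (t : ℕ) : ℕ :=
  (Finset.univ.filter (fun u : Fin M => (u : ℕ) < t ∧ y (k, u) = true)).card

theorem pc_zero (M : ℕ) (y : κ × Fin M → Bool) (k : κ) : pc M y k 0 = 0 := by
  simp [pc]

theorem pc_succ (M : ℕ) (y : κ × Fin M → Bool) (k : κ) (t : ℕ) (h : t < M) :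
    pc M y k (t + 1) = pc M y k t + (if y (k, ⟨t, h⟩) = true then 1 else 0) := by
  unfold pc
  by_cases h1 : y (k, ⟨t, h⟩) = true
  · rw [if_pos h1]
    have : (Finset.univ.filter (fun u : Fin M => (u : ℕ) < t + 1 ∧ y (k, u) = true)) =
        insert ⟨t, h⟩ (Finset.univ.filter (fun u : Fin M => (u : ℕ) < t ∧ y (k, u) = true)) := by
      ext u
      simp only [Finset.mem_filter, Finset.mem_univ, true_and, Finset.mem_insert]
      constructor
      · rintro ⟨h2, h3⟩
        by_cases h4 : (u : ℕ) = t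
        · exact Or.inl (Fin.ext h4)
        · exact Or.inr ⟨by omega, h3⟩
      · rintro (rfl | ⟨h2, h3⟩)
        · exact ⟨by simp, h1⟩
        · exact ⟨by omega, h3⟩
    rw [this, Finset.card_insert_of_notMem (by simp)]
  · rw [if_neg h1]
    change _ = Finset.card (Finset.univ.filter (fun u : Fin M => (u : ℕ) < t ∧ y (k, u) = true))
    apply congrArg Finset.card
    ext u
    simp only [Finset.mem_filter, Finset.mem_univ, true_and]
    constructor
    · rintro ⟨h2, h3⟩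
      refine ⟨?_, h3⟩
      by_contra h4
      have h5 : (u : ℕ) = t := by omega
      apply h1
      rw [← h3]
      congr 2
      exact Fin.ext h5.symm
    · rintro ⟨h2, h3⟩
      exact ⟨by omega, h3⟩

theorem pc_full (M : ℕ) (y : κ × Fin M → Bool) (k : κ) : pc M y k M = rowCount M y k := by
  unfold pc rowCount
  apply congrArg Finset.card
  ext u
  simp

theorem pc_le (M : ℕ) (y : κ × Fin M → Bool) (k : κ) (t : ℕ) : pc M y k t ≤ M := by
  unfold pc
  exact (Finset.card_le_univ _).trans (by simp)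

theorem rowCount_le (M : ℕ) (y : κ × Fin M → Bool) (k : κ) : rowCount M y k ≤ M := by
  rw [← pc_full]
  exact pc_le M y k M

/-- The counter computes the number of true entries. -/
theorem sq_ctr (M : ℕ) [Fintype κ] [DecidableEq κ] (y : κ × Fin M → Bool) {j : ℕ}
    (hj : Fintype.card (κ × Fin (M + 1) × Fin (M + 1)) ≤ 2 ^ j) (k : κ) (s : Fin (M + 1)) :
    (sq^[j] (fun p : (κ × Fin (M + 1) × Fin (M + 1)) × (κ × Fin (M + 1) × Fin (M + 1)) =>
      ctr M p.1 p.2 y)) ((k, 0, 0), (k, Fin.last M, s)) = decide (rowCount M y k = s) := by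
  set R : (κ × Fin (M + 1) × Fin (M + 1)) → (κ × Fin (M + 1) × Fin (M + 1)) → Prop := fun p q =>
    ∃ h : (p.2.1 : ℕ) < M, p.1 = q.1 ∧ (q.2.1 : ℕ) = p.2.1 + 1 ∧
      (q.2.2 : ℕ) = p.2.2 + (if y (p.1, ⟨p.2.1, h⟩) = true then 1 else 0) with hR
  have hM : ∀ e f, (fun p : (κ × Fin (M + 1) × Fin (M + 1)) × (κ × Fin (M + 1) × Fin (M + 1)) =>
      ctr M p.1 p.2 y) (e, f) = true ↔ e = f ∨ R e f := by
    intro e f
    simp only [ctr, Bool.or_eq_true, decide_eq_true_eq, hR]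
    apply or_congr Iff.rfl
    by_cases h : (e.2.1 : ℕ) < M
    · simp only [dif_pos h, Bool.or_eq_true, Bool.and_eq_true, decide_eq_true_eq]
      constructor
      · rintro (⟨⟨h1, h2, h3⟩, h4⟩ | ⟨⟨h1, h2, h3⟩, h4⟩)
        · exact ⟨h, h1, h2, by rw [if_pos h4]; exact h3⟩
        · refine ⟨h, h1, h2, ?_⟩
          simp only [Bool.not_eq_true'] at h4
          rw [h3, h4]
          simp
      · rintro ⟨_, h1, h2, h3⟩
        by_cases h4 : y (e.1, ⟨e.2.1, h⟩) = true
        · rw [if_pos h4] at h3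
          exact Or.inl ⟨⟨h1, h2, h3⟩, h4⟩
        · rw [if_neg h4] at h3
          refine Or.inr ⟨⟨h1, h2, by simpa using h3⟩, ?_⟩
          simpa using h4
    · simp only [dif_neg h]
      constructor
      · intro h1
        simp at h1
      · rintro ⟨h1, _⟩
        exact absurd h1 h
  have hht : ∀ e f, R e f → (e.2.1 : ℕ) < (f.2.1 : ℕ) := by
    rintro e f ⟨_, _, h2, _⟩
    omega
  rw [Bool.eq_iff_iff, sq_iterate_iff hM hj (ht := fun p => (p.2.1 : ℕ)) hht, decide_eq_true_eq]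
  -- reachable nodes
  have fwd : ∀ q, ReflTransGen R (k, 0, 0) q → q.1 = k ∧ (q.2.2 : ℕ) = pc M y k q.2.1 := by
    intro q hq
    induction hq with
    | refl => exact ⟨rfl, by simp [pc_zero]⟩
    | tail _ hstep ih =>
      obtain ⟨h0, h1, h2, h3⟩ := hstep
      obtain ⟨i1, i2⟩ := ih
      refine ⟨h1 ▸ i1, ?_⟩
      rw [h3, h2, pc_succ M y k _ h0, i2, i1]
  have bwd : ∀ t, ∀ ht : t < M + 1,
      ReflTransGen R (k, 0, 0) (k, ⟨t, ht⟩, ⟨pc M y k t, Nat.lt_succ_of_le (pc_le M y k t)⟩) := by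
    intro t
    induction t with
    | zero =>
      intro ht
      have h1 : (⟨pc M y k 0, Nat.lt_succ_of_le (pc_le M y k 0)⟩ : Fin (M + 1)) = 0 := by
        apply Fin.ext
        simp [pc_zero]
      rw [h1]
      exact ReflTransGen.refl
    | succ t ih =>
      intro ht
      refine (ih (by omega)).tail ?_
      exact ⟨by simp only; omega, rfl, rfl, pc_succ M y k t (by omega)⟩
  constructor
  · intro h
    have := (fwd _ h).2
    simp only [Fin.val_last] at this
    rw [pc_full] at this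
    exact this.symm
  · intro h
    have := bwd M (Nat.lt_succ_self M)
    have e1 : (⟨M, Nat.lt_succ_self M⟩ : Fin (M + 1)) = Fin.last M := rfl
    have e2 : (⟨pc M y k M, Nat.lt_succ_of_le (pc_le M y k M)⟩ : Fin (M + 1)) = s := by
      apply Fin.ext
      simp only
      rw [pc_full, h]
    rw [e1, e2] at this
    exact this

/-- Counting in the calculus. -/
theorem Cp.count (M : ℕ) [Fintype κ] [DecidableEq κ] {b c l D : ℕ} (hl : 1 ≤ l) (hD : 1 ≤ D)
    (hb : 4 ≤ b)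
    {f : (α → Bool) → κ × Fin M → Bool} (hf : Cp c l D f) (hκ : Fintype.card κ ≤ 2 ^ (b * l))
    (hM : M + 1 ≤ 2 ^ (b * l)) :
    Cp (9 * b * b + 100 * b + 2 * c + 100) l D
      (fun x (p : κ × Fin (M + 1)) => decide (rowCount M (f x) p.1 = p.2)) := by
  have h3b : Fintype.card (κ × Fin (M + 1) × Fin (M + 1)) ≤ 2 ^ (3 * b * l) := by
    rw [Fintype.card_prod, Fintype.card_prod, Fintype.card_fin]
    calc Fintype.card κ * ((M + 1) * (M + 1)) ≤ 2 ^ (b * l) * (2 ^ (b * l) * 2 ^ (b * l)) :=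
        Nat.mul_le_mul hκ (Nat.mul_le_mul hM hM)
      _ = 2 ^ (3 * b * l) := by rw [← pow_add, ← pow_add]; congr 1; ring
  have h6b : Fintype.card ((κ × Fin (M + 1) × Fin (M + 1)) × (κ × Fin (M + 1) × Fin (M + 1))) ≤
      2 ^ (6 * b * l) := by
    rw [Fintype.card_prod]
    calc _ ≤ 2 ^ (3 * b * l) * 2 ^ (3 * b * l) := Nat.mul_le_mul h3b h3b
      _ = 2 ^ (6 * b * l) := by rw [← pow_add]; congr 1; ring
  have h2b : Fintype.card (κ × Fin M) ≤ 2 ^ (2 * b * l) := by
    rw [Fintype.card_prod, Fintype.card_fin]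
    calc Fintype.card κ * M ≤ 2 ^ (b * l) * 2 ^ (b * l) := Nat.mul_le_mul hκ (by omega)
      _ = 2 ^ (2 * b * l) := by rw [← pow_add]; congr 1; ring
  have h1 := Cp.form (a := 6 * b) (b := 2 * b) hl hD hf h2b
    (fun (p : (κ × Fin (M + 1) × Fin (M + 1)) × (κ × Fin (M + 1) × Fin (M + 1)))
      (y : α ⊕ (κ × Fin M) → Bool) => ctr M p.1 p.2 (fun a => y (Sum.inr a)))
    (fun p => fd_inputs Sum.inr (fd_ctr M p.1 p.2)) (by nlinarith) h6b
  have h2 := Cp.sq (b := 3 * b) (j := 3 * b * l) hl hD h1 h3b le_rfl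
  have h2b' : Fintype.card (κ × Fin (M + 1)) ≤ 2 ^ (2 * b * l) := by
    rw [Fintype.card_prod, Fintype.card_fin]
    calc Fintype.card κ * (M + 1) ≤ 2 ^ (b * l) * 2 ^ (b * l) := Nat.mul_le_mul hκ hM
      _ = 2 ^ (2 * b * l) := by rw [← pow_add]; congr 1; ring
  have h3 := h2.sel (b := 2 * b) hl hD h2b' (fun p : κ × Fin (M + 1) =>
    ((p.1, 0, 0), (p.1, Fin.last M, p.2)))
  refine (h3.congr (fun x p => ?_)).mono hl ?_ le_rfl
  · exact sq_ctr M (f x) h3b p.1 p.2
  · nlinarith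

end Pool.Agent.LibCCQ
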