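import Pool.Agent.LibCCQ.P5Rank
import Pool.Agent.LibCCQ.P5Count
import Pool.Agent.LibCCV.Defs

/-!
From an evaluator for networks to an evaluator for comparator circuits.
-/

namespace Pool.Agent.LibCCQ

open Pool.Agent.LibCC Pool.Agent.LibCCV Relation Finset

variable {n m : ℕ}

/-! ### The pieces -/

/-- Adjacency of comparators. -/
def gadj (x : Bit n m → Bool) (p : Fin m × Fin m) : Bool :=
  decide (p.1 = p.2) ||
    decide (∃ bc : Bool × Bool, x (.link (p.2, bc.1) (Sum.inr (p.1, bc.2))) = true)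

theorem fd_gadj (p : Fin m × Fin m) : FD 3 (fun x : Bit n m → Bool => gadj x p) := by
  unfold gadj
  refine FD.or (k := 2) (FD.const 2 _) ?_
  exact FD.exists (k := 0) 2 (by simp) (fun (bc : Bool × Bool) (x : Bit n m → Bool) =>
    x (.link (p.2, bc.1) (Sum.inr (p.1, bc.2)))) (fun bc => FD.var 0 _)

/-- Reachability of comparators. -/
def grch (l : ℕ) (x : Bit n m → Bool) : Fin m × Fin m → Bool := sq^[l] (gadj x)

/-- Ancestors, indexed by rows. -/
def ancB (l : ℕ) (x : Bit n m → Bool) (p : Fin m × Fin m) : Bool := grch l x (p.2, p.1)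

/-- Number of ancestors. -/
def cntB (l : ℕ) (x : Bit n m → Bool) (p : Fin m × Fin (m + 1)) : Bool :=
  decide (rowCount m (ancB l x) p.1 = p.2)

/-- The order of the comparators as a formula. -/
def befF (p : Fin m × Fin m) (y : Bit n m ⊕ (Fin m × Fin (m + 1)) → Bool) : Bool :=
  decide (∃ s : Fin (m + 1) × Fin (m + 1),
    (decide (s.1 < s.2) && (y (Sum.inr (p.2, s.1)) && y (Sum.inr (p.1, s.2)))) = true) ||
  (decide (p.2 < p.1) && decide (∃ s : Fin (m + 1),
    (y (Sum.inr (p.2, s)) && y (Sum.inr (p.1, s))) = true))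

theorem fd_befF {l : ℕ} (hm : m + 1 ≤ 2 ^ l) (p : Fin m × Fin m) :
    FD (2 * l + 4) (befF (n := n) p) := by
  unfold befF
  refine FD.or (k := 2 * l + 3) ?_ ?_
  · have h1 := FD.exists (k := 2) (2 * l) (ι := Fin (m + 1) × Fin (m + 1)) (by
      rw [Fintype.card_prod, Fintype.card_fin, two_mul, pow_add]
      exact Nat.mul_le_mul hm hm)
      (fun s (y : Bit n m ⊕ (Fin m × Fin (m + 1)) → Bool) =>
        decide (s.1 < s.2) && (y (Sum.inr (p.2, s.1)) && y (Sum.inr (p.1, s.2))))
      (fun s => (FD.const 1 _).and ((FD.var 0 _).and (FD.var 0 _)))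
    exact h1.mono (by omega)
  · refine FD.and (k := 2 * l + 2) (FD.const _ _) ?_
    have h1 := FD.exists (k := 1) l (ι := Fin (m + 1)) (by rw [Fintype.card_fin]; exact hm)
      (fun s (y : Bit n m ⊕ (Fin m × Fin (m + 1)) → Bool) =>
        (y (Sum.inr (p.2, s)) && y (Sum.inr (p.1, s))))
      (fun s => (FD.var 0 _).and (FD.var 0 _))
    exact (h1.mono (show 1 + l ≤ 2 * l + 2 by omega)).congr
      (fun y => decide_eq_decide.2 Iff.rfl)

/-- The order of the comparators. -/
def befB (l : ℕ) (x : Bit n m → Bool) (p : Fin m × Fin m) : Bool :=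
  befF p (Sum.elim x (cntB l x))

/-- The positions of the comparators. -/
def rkB (l : ℕ) (x : Bit n m → Bool) (p : Fin m × Fin (m + 1)) : Bool :=
  decide (rowCount m (befB l x) p.1 = p.2)

/-- The arc `f` continues the line of the arc `e`. -/
def ladj (x : Bit n m → Bool) (p : Arc n m × Arc n m) : Bool :=
  decide (p.1 = p.2) || (match p.2 with
    | Sum.inl _ => false
    | Sum.inr q => x (.link q p.1))

theorem fd_ladj (p : Arc n m × Arc n m) : FD 1 (fun x : Bit n m → Bool => ladj x p) := by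
  unfold ladj
  refine FD.or (k := 0) (FD.const 0 _) ?_
  rcases p with ⟨e, i | q⟩
  · exact FD.const 0 _
  · exact FD.var 0 _

/-- Lines. -/
def lrch (l : ℕ) (x : Bit n m → Bool) : Arc n m × Arc n m → Bool := sq^[l] (ladj x)

/-- Positions and lines. -/
abbrev PL (n m : ℕ) : Type := (Fin m × Fin (m + 1)) ⊕ (Arc n m × Arc n m)

def plB (l : ℕ) (x : Bit n m → Bool) : PL n m → Bool := Sum.elim (rkB l x) (lrch l x)

/-- The bits of the network. -/
def nbF (q : NBit (Fin n) m) (y : Bit n m ⊕ PL n m → Bool) : Bool := match q with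
  | Sum.inl (t, b, p) => decide (∃ g : Fin m,
      (y (Sum.inr (Sum.inl (g, t.castSucc))) &&
        y (Sum.inr (Sum.inr (Sum.inl p, Sum.inr (g, b))))) = true)
  | Sum.inr p => y (Sum.inl (.src p))

theorem fd_nbF {l : ℕ} (hm : m + 1 ≤ 2 ^ l) (q : NBit (Fin n) m) : FD (l + 1) (nbF q) := by
  rcases q with ⟨t, b, p⟩ | p
  · have h1 := FD.exists (k := 1) l (ι := Fin m) (by rw [Fintype.card_fin]; omega)
      (fun g (y : Bit n m ⊕ PL n m → Bool) => (y (Sum.inr (Sum.inl (g, t.castSucc))) &&
        y (Sum.inr (Sum.inr (Sum.inl p, Sum.inr (g, b))))))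
      (fun g => (FD.var 0 _).and (FD.var 0 _))
    exact (h1.mono (show 1 + l ≤ l + 1 by omega)).congr
      (fun y => decide_eq_decide.2 Iff.rfl)
  · exact FD.var _ _

def nbB (l : ℕ) (x : Bit n m → Bool) (q : NBit (Fin n) m) : Bool :=
  nbF q (Sum.elim x (plB l x))

/-- The value of an arc. -/
def valF (a : Arc n m) (y : Bit n m ⊕ (PL n m ⊕ (Fin (m + 1) × Fin n)) → Bool) : Bool :=
  match a with
  | Sum.inl i => y (Sum.inl (.src i))
  | Sum.inr (g, c) => decide (∃ tp : Fin m × Fin n,
      ((y (Sum.inr (Sum.inl (Sum.inl (g, tp.1.castSucc)))) &&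
        y (Sum.inr (Sum.inl (Sum.inr (Sum.inl tp.2, Sum.inr (g, c)))))) &&
        y (Sum.inr (Sum.inr (tp.1.succ, tp.2)))) = true)

theorem fd_valF {l : ℕ} (hN : n + 2 * m + 1 ≤ 2 ^ l) (a : Arc n m) : FD (2 * l + 2) (valF a) := by
  rcases a with i | ⟨g, c⟩
  · exact FD.var _ _
  · have h1 := FD.exists (k := 2) (2 * l) (ι := Fin m × Fin n) (by
      rw [Fintype.card_prod, Fintype.card_fin, Fintype.card_fin, two_mul, pow_add]
      exact Nat.mul_le_mul (by omega) (by omega))
      (fun tp (y : Bit n m ⊕ (PL n m ⊕ (Fin (m + 1) × Fin n)) → Bool) =>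
        ((y (Sum.inr (Sum.inl (Sum.inl (g, tp.1.castSucc)))) &&
        y (Sum.inr (Sum.inl (Sum.inr (Sum.inl tp.2, Sum.inr (g, c)))))) &&
        y (Sum.inr (Sum.inr (tp.1.succ, tp.2)))))
      (fun tp => ((FD.var 0 _).and (FD.var 0 _)).and (FD.var 1 _))
    exact h1.mono (by omega)

/-- The value of the designated arc. -/
def outF (_ : Unit) (y : Bit n m ⊕ (PL n m ⊕ (Fin (m + 1) × Fin n)) → Bool) : Bool :=
  decide (∃ a : Arc n m, (y (Sum.inl (.goal a)) && valF a y) = true)

theorem fd_outF {l : ℕ} (hN : n + 2 * m + 1 ≤ 2 ^ l) (u : Unit) :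
    FD (3 * l + 3) (outF (n := n) (m := m) u) := by
  have h1 := FD.exists (k := 2 * l + 3) l (ι := Arc n m) (by
      rw [Fintype.card_sum, Fintype.card_prod, Fintype.card_fin, Fintype.card_fin,
        Fintype.card_bool]
      omega)
      (fun a (y : Bit n m ⊕ (PL n m ⊕ (Fin (m + 1) × Fin n)) → Bool) =>
        (y (Sum.inl (.goal a)) && valF a y))
      (fun a => (FD.var _ _).and (fd_valF hN a))
  exact h1.mono (by omega)

/-! ### Semantics -/

variable {C : CompCircuit n m} {x : Fin n → Bool} {e : Arc n m}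

theorem gadj_iff (h g : Fin m) : gadj (encode C x e) (h, g) = true ↔ h = g ∨ EC C h g := by
  simp only [gadj, Bool.or_eq_true, decide_eq_true_eq, encode, EC]
  apply or_congr Iff.rfl
  constructor
  · rintro ⟨⟨b, c⟩, h1⟩
    exact ⟨b, c, h1⟩
  · rintro ⟨b, c, h1⟩
    exact ⟨(b, c), h1⟩

theorem grch_iff {l : ℕ} (hm : m ≤ 2 ^ l) (h g : Fin m) :
    grch l (encode C x e) (h, g) = true ↔ ReflTransGen (EC C) h g := by
  obtain ⟨ord, hord⟩ := C.acyclic
  refine sq_iterate_iff (fun h g => gadj_iff h g) (by rw [Fintype.card_fin]; exact hm)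
    (ht := ord) ?_ h g
  rintro a b ⟨b', c', h1⟩
  exact hord _ _ _ _ h1

theorem cntB_iff {l : ℕ} (hm : m ≤ 2 ^ l) (g : Fin m) (s : Fin (m + 1)) :
    cntB l (encode C x e) (g, s) = true ↔ anc C g = s := by
  classical
  simp only [cntB, decide_eq_true_eq]
  have : rowCount m (ancB l (encode C x e)) g = anc C g := by
    unfold rowCount anc
    apply congrArg Finset.card
    ext h
    simp only [mem_filter, mem_univ, true_and, ancB]
    exact grch_iff hm h g
  rw [this]

theorem anc_le (C : CompCircuit n m) (g : Fin m) : anc C g < m + 1 := by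
  classical
  unfold anc
  have := Finset.card_le_univ (univ.filter (fun h : Fin m => ReflTransGen (EC C) h g))
  rw [Fintype.card_fin] at this
  omega

theorem befB_iff {l : ℕ} (hm : m ≤ 2 ^ l) (g h : Fin m) :
    befB l (encode C x e) (g, h) = true ↔ Bef C h g := by
  simp only [befB, befF, Bool.or_eq_true, Bool.and_eq_true, decide_eq_true_eq, Sum.elim_inr,
    cntB_iff hm, Bef]
  constructor
  · rintro (⟨s, h1, h2, h3⟩ | ⟨h1, s, h2, h3⟩)
    · left
      have : (s.1 : ℕ) < s.2 := h1
      omega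
    · right
      exact ⟨by omega, h1⟩
  · rintro (h1 | ⟨h1, h2⟩)
    · left
      refine ⟨(⟨anc C h, anc_le C h⟩, ⟨anc C g, anc_le C g⟩), ?_, rfl, rfl⟩
      exact h1
    · right
      exact ⟨h2, ⟨anc C h, anc_le C h⟩, rfl, h1.symm⟩

theorem rkB_iff {l : ℕ} (hm : m ≤ 2 ^ l) (g : Fin m) (s : Fin (m + 1)) :
    rkB l (encode C x e) (g, s) = true ↔ ((netData C).rk g : ℕ) = s := by
  classical
  simp only [rkB, decide_eq_true_eq]
  have : rowCount m (befB l (encode C x e)) g = (netData C).rk g := by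
    rw [netData_rk]
    unfold rowCount rkn
    apply congrArg Finset.card
    ext h
    simp only [mem_filter, mem_univ, true_and]
    exact befB_iff hm g h
  rw [this]

theorem lrch_iff {l : ℕ} (hN : n + 2 * m + 1 ≤ 2 ^ l) (i : Fin n) (a : Arc n m) :
    lrch l (encode C x e) (Sum.inl i, a) = true ↔ (netData C).ln a = i := by
  rw [← netData_ln]
  obtain ⟨ord, hord⟩ := C.acyclic
  refine sq_iterate_iff (R := ED C) ?_ (by
      rw [Fintype.card_sum, Fintype.card_prod, Fintype.card_fin, Fintype.card_fin,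
        Fintype.card_bool]
      omega) (ht := fun a => match a with
        | Sum.inl _ => 0
        | Sum.inr (g, _) => ord g + 1) ?_ (Sum.inl i) a
  · intro e' f
    rcases f with j | q
    · simp only [ladj, Bool.or_eq_true, decide_eq_true_eq, ED, Bool.false_eq_true]
      constructor
      · rintro (h | h)
        · exact Or.inl h
        · exact h.elim
      · rintro (h | ⟨p, _, h⟩)
        · exact Or.inl h
        · simp at h
    · simp only [ladj, Bool.or_eq_true, decide_eq_true_eq, encode, ED]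
      apply or_congr Iff.rfl
      constructor
      · intro h
        exact ⟨q, h, rfl⟩
      · rintro ⟨p, h1, h2⟩
        rw [Sum.inr.inj h2]
        exact h1
  · rintro a b ⟨⟨g, c⟩, rfl, rfl⟩
    rcases hb : C.inp (g, c) with j | ⟨h, c'⟩
    · exact Nat.succ_pos _
    · exact Nat.succ_lt_succ (hord g c h c' hb)

theorem nbB_eq {l : ℕ} (hN : n + 2 * m + 1 ≤ 2 ^ l) :
    nbB l (encode C x e) = enc (netOf C) x := by
  funext q
  rcases q with ⟨t, b, p⟩ | p
  · rw [Bool.eq_iff_iff]
    have h1 : nbB l (encode C x e) (Sum.inl (t, b, p)) = true ↔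
        ∃ g : Fin m, ((netData C).rk g : ℕ) = (t.castSucc : Fin (m + 1)) ∧
          (netData C).ln (Sum.inr (g, b)) = p := by
      simp only [nbB, nbF, decide_eq_true_eq, Bool.and_eq_true, Sum.elim_inr, plB, Sum.elim_inl,
        rkB_iff (show m ≤ 2 ^ l by omega), lrch_iff hN]
    rw [h1]
    obtain ⟨g0, hg0⟩ := rk_surj C t
    have h2 : netOf C t = ((netData C).ln (Sum.inr (g0, false)), (netData C).ln (Sum.inr (g0, true))) := by
      rw [← hg0, netOf_rk]
    have h3 : (∃ g : Fin m, ((netData C).rk g : ℕ) = (t.castSucc : Fin (m + 1)) ∧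
          (netData C).ln (Sum.inr (g, b)) = p) ↔ (netData C).ln (Sum.inr (g0, b)) = p := by
      constructor
      · rintro ⟨g, h4, h5⟩
        have h6 : (netData C).rk g = (netData C).rk g0 := by
          rw [hg0]
          exact Fin.ext h4
        rw [← (netData C).rk_inj h6]
        exact h5
      · intro h4
        exact ⟨g0, by rw [hg0]; rfl, h4⟩
    rw [h3]
    cases b
    · simp only [enc, h2, decide_eq_true_eq]
    · simp only [enc, h2, decide_eq_true_eq]
  · rfl

/-- The function computed by the whole circuit. -/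
def outB (l : ℕ) (f : (NBit (Fin n) m → Bool) → Fin (m + 1) × Fin n → Bool)
    (x : Bit n m → Bool) (u : Unit) : Bool :=
  outF u (Sum.elim x (Sum.elim (plB l x) (f (nbB l x))))

theorem outB_eq {l : ℕ} (hN : n + 2 * m + 1 ≤ 2 ^ l)
    {f : (NBit (Fin n) m → Bool) → Fin (m + 1) × Fin n → Bool}
    (hf : ∀ (N : Net (Fin n) m) (w : Fin n → Bool) (t : Fin (m + 1)) (p : Fin n),
      f (enc N w) (t, p) = st N w t p)
    {v : Arc n m → Bool} (hv : C.IsVal x v) (u : Unit) :
    outB l f (encode C x e) u = v e := by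
  have hval : ∀ a, valF a (Sum.elim (encode C x e)
      (Sum.elim (plB l (encode C x e)) (f (nbB l (encode C x e))))) = v a := by
    intro a
    rcases a with i | ⟨g, c⟩
    · change x i = _
      exact (hv.source i).symm
    · rw [Bool.eq_iff_iff]
      simp only [valF, decide_eq_true_eq, Bool.and_eq_true, Sum.elim_inr, Sum.elim_inl, plB,
        rkB_iff (show m ≤ 2 ^ l by omega), lrch_iff hN, nbB_eq hN, hf]
      have h1 := st_netOf hv (Sum.inr (g, c))
      constructor
      · rintro ⟨⟨t, p⟩, ⟨h2, h3⟩, h4⟩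
        rw [← h1]
        have h5 : (netData C).birth (Sum.inr (g, c)) = (t.succ : Fin (m + 1)) := by
          change ((netData C).rk g : ℕ) + 1 = _
          rw [h2]
          simp
        rw [h5, h3]
        exact h4
      · intro h2
        refine ⟨((netData C).rk g, (netData C).ln (Sum.inr (g, c))), ⟨rfl, rfl⟩, ?_⟩
        rw [← h1] at h2
        exact h2
  rw [Bool.eq_iff_iff]
  simp only [outB, outF, decide_eq_true_eq, Bool.and_eq_true, hval, Sum.elim_inl, encode]
  constructor
  · rintro ⟨a, h1, h2⟩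
    rw [h1]
    exact h2
  · intro h
    exact ⟨e, rfl, h⟩

end Pool.Agent.LibCCQ
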