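import Pool.Agent.LibCCQ.P5Circ

/-!
Cost of the conversion of comparator circuits into networks.
-/

namespace Pool.Agent.LibCCQ

open Pool.Agent.LibCC Pool.Agent.LibCCV Relation Finset

variable {n m l D : ℕ}

theorem card_mm (hN : n + 2 * m + 1 ≤ 2 ^ l) : Fintype.card (Fin m × Fin m) ≤ 2 ^ (2 * l) := by
  rw [Fintype.card_prod, Fintype.card_fin, two_mul, pow_add]
  exact Nat.mul_le_mul (by omega) (by omega)

theorem card_mm1 (hN : n + 2 * m + 1 ≤ 2 ^ l) :
    Fintype.card (Fin m × Fin (m + 1)) ≤ 2 ^ (2 * l) := by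
  rw [Fintype.card_prod, Fintype.card_fin, Fintype.card_fin, two_mul, pow_add]
  exact Nat.mul_le_mul (by omega) (by omega)

theorem card_arc (hN : n + 2 * m + 1 ≤ 2 ^ l) : Fintype.card (Arc n m) ≤ 2 ^ l := by
  rw [Fintype.card_sum, Fintype.card_prod, Fintype.card_fin, Fintype.card_fin,
    Fintype.card_bool]
  omega

theorem card_aa (hN : n + 2 * m + 1 ≤ 2 ^ l) : Fintype.card (Arc n m × Arc n m) ≤ 2 ^ (2 * l) := by
  rw [Fintype.card_prod, two_mul, pow_add]
  exact Nat.mul_le_mul (card_arc hN) (card_arc hN)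

theorem pow_le_of {a b l : ℕ} (h : a ≤ b) : 2 ^ (a * l) ≤ 2 ^ (b * l) :=
  Nat.pow_le_pow_right (by norm_num) (Nat.mul_le_mul_right _ h)

theorem card_pl (hl : 1 ≤ l) (hN : n + 2 * m + 1 ≤ 2 ^ l) : Fintype.card (PL n m) ≤ 2 ^ (5 * l) := by
  rw [Fintype.card_sum]
  exact (Nat.add_le_add (card_mm1 hN) (card_aa hN)).trans (width_add hl (by norm_num))

theorem card_tp (hN : n + 2 * m + 1 ≤ 2 ^ l) :
    Fintype.card (Fin (m + 1) × Fin n) ≤ 2 ^ (2 * l) := by
  rw [Fintype.card_prod, Fintype.card_fin, Fintype.card_fin, two_mul, pow_add]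
  exact Nat.mul_le_mul (by omega) (by omega)

theorem card_nb (hl : 1 ≤ l) (hN : n + 2 * m + 1 ≤ 2 ^ l) :
    Fintype.card (NBit (Fin n) m) ≤ 2 ^ (5 * l) := by
  have h1 : Fintype.card (NBit (Fin n) m) = m * (2 * n) + n := by
    simp only [Fintype.card_sum, Fintype.card_prod, Fintype.card_fin, Fintype.card_bool]
  rw [h1]
  have h2 : m * (2 * n) ≤ 2 ^ (2 * l) := by
    have e : m * (2 * n) = (2 * m) * n := by ring
    rw [e, two_mul l, pow_add]
    exact Nat.mul_le_mul (by omega) (by omega)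
  have h3 : n ≤ 2 ^ (1 * l) := by rw [one_mul]; omega
  exact (Nat.add_le_add h2 h3).trans (width_add hl (by norm_num))

theorem cp_grch (hl : 1 ≤ l) (hD : 1 ≤ D) (hN : n + 2 * m + 1 ≤ 2 ^ l) :
    Cp 18 l D (grch l : (Bit n m → Bool) → _) := by
  have h1 := Cp.fd (c := 3) (D := D) hl hD (fun p (x : Bit n m → Bool) => gadj x p)
    (fun p => fd_gadj p) (by omega) ((card_mm hN).trans (pow_le_of (by norm_num)))
  exact Cp.sq (b := 1) (j := l) hl hD h1 (by rw [Fintype.card_fin, one_mul]; omega) (by omega)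

theorem cp_ancB (hl : 1 ≤ l) (hD : 1 ≤ D) (hN : n + 2 * m + 1 ≤ 2 ^ l) :
    Cp 21 l D (ancB l : (Bit n m → Bool) → _) := by
  have h1 := (cp_grch hl hD hN).sel (b := 2) hl hD (card_mm hN) (fun p : Fin m × Fin m => (p.2, p.1))
  exact h1.congr (fun x p => rfl)

theorem cp_cntB (hl : 1 ≤ l) (hD : 1 ≤ D) (hN : n + 2 * m + 1 ≤ 2 ^ l) :
    Cp 686 l D (cntB l : (Bit n m → Bool) → _) := by
  have h1 := Cp.count (b := 4) m hl hD le_rfl (cp_ancB hl hD hN)
    (by
      rw [Fintype.card_fin]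
      have : 2 ^ (1 * l) ≤ 2 ^ (4 * l) := pow_le_of (by norm_num)
      rw [one_mul] at this
      omega)
    (by
      have : 2 ^ (1 * l) ≤ 2 ^ (4 * l) := pow_le_of (by norm_num)
      rw [one_mul] at this
      omega)
  exact (h1.congr (fun x p => rfl)).mono hl (by norm_num) le_rfl

theorem cp_befB (hl : 1 ≤ l) (hD : 1 ≤ D) (hN : n + 2 * m + 1 ≤ 2 ^ l) :
    Cp 1422 l D (befB l : (Bit n m → Bool) → _) := by
  have h1 := Cp.form (a := 6) (b := 2) hl hD (cp_cntB hl hD hN) (card_mm1 hN)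
    (fun p (y : Bit n m ⊕ (Fin m × Fin (m + 1)) → Bool) => befF p y)
    (fun p => fd_befF (l := l) (by omega) p) (by omega) ((card_mm hN).trans (pow_le_of (by norm_num)))
  exact (h1.congr (fun x p => rfl)).mono hl (by norm_num) le_rfl

theorem cp_rkB (hl : 1 ≤ l) (hD : 1 ≤ D) (hN : n + 2 * m + 1 ≤ 2 ^ l) :
    Cp 3488 l D (rkB l : (Bit n m → Bool) → _) := by
  have h1 := Cp.count (b := 4) m hl hD le_rfl (cp_befB hl hD hN)
    (by
      rw [Fintype.card_fin]
      have : 2 ^ (1 * l) ≤ 2 ^ (4 * l) := pow_le_of (by norm_num)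
      rw [one_mul] at this
      omega)
    (by
      have : 2 ^ (1 * l) ≤ 2 ^ (4 * l) := pow_le_of (by norm_num)
      rw [one_mul] at this
      omega)
  exact (h1.congr (fun x p => rfl)).mono hl (by norm_num) le_rfl

theorem cp_lrch (hl : 1 ≤ l) (hD : 1 ≤ D) (hN : n + 2 * m + 1 ≤ 2 ^ l) :
    Cp 16 l D (lrch l : (Bit n m → Bool) → _) := by
  have h1 := Cp.fd (c := 2) (D := D) hl hD (fun p (x : Bit n m → Bool) => ladj x p)
    (fun p => fd_ladj p) (by omega) (card_aa hN)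
  exact Cp.sq (b := 1) (j := l) hl hD h1 (by rw [one_mul]; exact card_arc hN) (by omega)

theorem cp_plB (hl : 1 ≤ l) (hD : 1 ≤ D) (hN : n + 2 * m + 1 ≤ 2 ^ l) :
    Cp 7016 l D (plB l : (Bit n m → Bool) → _) := by
  have h1 := Cp.pair (b := 2) hl hD (cp_rkB hl hD hN) (cp_lrch hl hD hN) (card_mm1 hN)
  rw [← two_mul] at h1
  exact ((Cp.two hl h1).congr (fun x p => rfl)).mono hl (by norm_num) le_rfl

theorem cp_nbB (hl : 1 ≤ l) (hD : 1 ≤ D) (hN : n + 2 * m + 1 ≤ 2 ^ l) :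
    Cp 14082 l D (nbB l : (Bit n m → Bool) → _) := by
  have h1 := Cp.form (a := 5) (b := 5) hl hD (cp_plB hl hD hN) (card_pl hl hN)
    (fun p (y : Bit n m ⊕ PL n m → Bool) => nbF p y)
    (fun p => fd_nbF (l := l) (by omega) p) (by omega) (card_nb hl hN)
  exact (h1.congr (fun x p => rfl)).mono hl (by norm_num) le_rfl

theorem cp_outB {c q : ℕ} (hl : 1 ≤ l) (hq : 1 ≤ q) (hN : n + 2 * m + 1 ≤ 2 ^ l)
    {f : (NBit (Fin n) m → Bool) → Fin (m + 1) × Fin n → Bool} (hf : Cp c l q f) :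
    Cp (8 * c + 200000) l q (outB l f) := by
  -- states
  have h1 := Cp.comp (a := 2) (b := 5) hl hq (cp_nbB hl hq hN) hf (card_nb hl hN) (card_tp hN)
  rw [← two_mul] at h1
  have h2 := Cp.two hl h1
  have h3 := Cp.pair (b := 5) hl hq (cp_plB hl hq hN) h2 (card_pl hl hN)
  rw [← two_mul] at h3
  have h4 := Cp.two hl h3
  have hc : Fintype.card (PL n m ⊕ (Fin (m + 1) × Fin n)) ≤ 2 ^ (8 * l) := by
    rw [Fintype.card_sum]
    exact (Nat.add_le_add (card_pl hl hN) (card_tp hN)).trans (width_add hl (by norm_num))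
  have h5 := Cp.form (a := 6) (b := 8) hl hq h4 hc
    (fun p (y : Bit n m ⊕ (PL n m ⊕ (Fin (m + 1) × Fin n)) → Bool) => outF p y)
    (fun p => fd_outF (l := l) hN p) (by omega) (by
      rw [Fintype.card_unit]
      exact Nat.one_le_two_pow)
  exact (h5.congr (fun x p => rfl)).mono hl (by omega) le_rfl

end Pool.Agent.LibCCQ
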