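import Pool.Agent.LibCCQ.P5Cost
import Pool.Agent.LibCC89.Statement

/-!
The final theorem from the evaluator for networks.
-/

namespace Pool.Agent.LibCCQ

open Pool.Agent.LibCC Pool.Agent.LibCCV Relation Finset

/-- Final form. -/
def FinalQ : Prop :=
  ∃ c : ℕ, ∀ n m : ℕ,
    ∃ (D : ℕ) (B : BCircuit (Bit n m) (c * (n + 2 * m + 1) ^ c))
      (o : Fin (c * (n + 2 * m + 1) ^ c)),
      (D : ℝ) ≤ c * ((Nat.log 2 (n + 2 * m + 1) : ℝ) + 1) ^ c *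
        min (((m : ℝ) + 1) ^ (1 / 4 : ℝ)) (((n : ℝ) + 1) ^ (1 / 2 : ℝ)) ∧
      ∀ (C : CompCircuit n m) (x : Fin n → Bool) (v : Arc n m → Bool), C.IsVal x v →
        ∀ e : Arc n m, B.level (encode C x e) D o = v e

/-- A natural number between `a ^ (1 / k)` and twice this number. -/
theorem root_ceil (a k : ℕ) (hk : 1 ≤ k) :
    ∃ q : ℕ, 1 ≤ q ∧ q ≤ a + 1 ∧ a ≤ q ^ k ∧ (q : ℝ) ≤ 2 * ((a : ℝ) + 1) ^ (1 / (k : ℝ)) := by
  set y : ℝ := ((a : ℝ) + 1) ^ (1 / (k : ℝ)) with hy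
  have hk0 : (0 : ℝ) < k := by exact_mod_cast hk
  have ha1 : (1 : ℝ) ≤ (a : ℝ) + 1 := by
    have : (0 : ℝ) ≤ a := Nat.cast_nonneg a
    linarith
  have hy1 : 1 ≤ y := Real.one_le_rpow ha1 (by positivity)
  have hy2 : y ≤ (a : ℝ) + 1 := by
    calc y ≤ ((a : ℝ) + 1) ^ (1 : ℝ) := by
          apply Real.rpow_le_rpow_of_exponent_le ha1
          rw [div_le_one hk0]
          exact_mod_cast hk
      _ = _ := Real.rpow_one _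
  have hy5 : y ^ k = (a : ℝ) + 1 := by
    rw [hy, ← Real.rpow_natCast, ← Real.rpow_mul (by linarith), one_div,
      inv_mul_cancel₀ (by positivity), Real.rpow_one]
  refine ⟨⌈y⌉₊, ?_, ?_, ?_, ?_⟩
  · rw [Nat.one_le_ceil_iff]
    linarith
  · rw [Nat.ceil_le]
    push_cast
    exact hy2
  · have h1 : (a : ℝ) ≤ (⌈y⌉₊ : ℝ) ^ k := by
      calc (a : ℝ) ≤ y ^ k := by rw [hy5]; linarith
        _ ≤ (⌈y⌉₊ : ℝ) ^ k := pow_le_pow_left₀ (by linarith) (Nat.le_ceil y) k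
    exact_mod_cast h1
  · have := Nat.ceil_lt_add_one (a := y) (by linarith)
    linarith

theorem finalQ_of_allNets (h : AllNets) : FinalQ := by
  obtain ⟨c0, hc0⟩ := h
  obtain ⟨c1, hc1⟩ : ∃ c1, c1 = 8 * c0 + 200000 := ⟨_, rfl⟩
  refine ⟨2 ^ (c1 + 1), fun n m => ?_⟩
  set N := n + 2 * m + 1 with hN
  set l := Nat.log 2 N + 1 with hl
  have hNpos : 1 ≤ N := by omega
  have hl1 : 1 ≤ l := by omega
  have hNl : N ≤ 2 ^ l := (Nat.lt_pow_succ_log_self (by norm_num) N).le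
  have hlN : 2 ^ l ≤ 2 * N := by
    rw [hl, pow_succ, mul_comm]
    exact Nat.mul_le_mul_left _ (Nat.pow_log_le_self 2 (by omega))
  obtain ⟨q1, hq1a, hq1b, hq1c, hq1d⟩ := root_ceil m 4 (by norm_num)
  obtain ⟨q2, hq2a, hq2b, hq2c, hq2d⟩ := root_ceil n 2 (by norm_num)
  have hq : ∃ q : ℕ, 1 ≤ q ∧ q ≤ 2 ^ l ∧ (n ≤ q ^ 2 ∨ m ≤ q ^ 4) ∧
      (q : ℝ) ≤ 2 * min (((m : ℝ) + 1) ^ (1 / 4 : ℝ)) (((n : ℝ) + 1) ^ (1 / 2 : ℝ)) := by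
    have e1 : (q1 : ℝ) ≤ 2 * ((m : ℝ) + 1) ^ (1 / 4 : ℝ) := by simpa using hq1d
    have e2 : (q2 : ℝ) ≤ 2 * ((n : ℝ) + 1) ^ (1 / 2 : ℝ) := by simpa using hq2d
    rcases le_total (((m : ℝ) + 1) ^ (1 / 4 : ℝ)) (((n : ℝ) + 1) ^ (1 / 2 : ℝ)) with h | h
    · refine ⟨q1, hq1a, by omega, Or.inr hq1c, ?_⟩
      rw [min_eq_left h]
      exact e1
    · refine ⟨q2, hq2a, by omega, Or.inl hq2c, ?_⟩
      rw [min_eq_right h]
      exact e2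
  obtain ⟨q, hqa, hqb, hqc, hqd⟩ := hq
  obtain ⟨d, hd, f, hf, hev⟩ := hc0 n m q l hl1 hqa hqb (by omega) hqc
  have hcp : Cp c0 l q f := ⟨d, hd, hf⟩
  have hcp2 := cp_outB hl1 hqa hNl hcp
  rw [← hc1] at hcp2
  obtain ⟨D, B, o, hD, hB⟩ := hcp2.toCircuit
  have hpow : c1 + 1 ≤ 2 ^ (c1 + 1) := Nat.lt_two_pow_self.le
  have hWW : 2 ^ (c1 * l) ≤ 2 ^ (c1 + 1) * N ^ (2 ^ (c1 + 1)) := by
    calc 2 ^ (c1 * l) = (2 ^ l) ^ c1 := by rw [mul_comm, pow_mul]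
      _ ≤ (2 * N) ^ c1 := Nat.pow_le_pow_left hlN _
      _ = 2 ^ c1 * N ^ c1 := mul_pow _ _ _
      _ ≤ 2 ^ (c1 + 1) * N ^ (2 ^ (c1 + 1)) :=
        Nat.mul_le_mul (Nat.pow_le_pow_right (by norm_num) (by omega))
          (Nat.pow_le_pow_right hNpos (by omega))
  obtain ⟨B', hB'⟩ := LibCC89.BCircuit.widen hWW B
  refine ⟨D, B', Fin.castLE hWW (o ()), ?_, fun C x v hv e => ?_⟩
  · have h1 : (D : ℝ) ≤ c1 * ((Nat.log 2 N : ℝ) + 1) ^ c1 * q := by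
      have : D ≤ c1 * l ^ c1 * q := hD
      exact_mod_cast this
    have hL1 : (1 : ℝ) ≤ (Nat.log 2 N : ℝ) + 1 := by
      have : (0 : ℝ) ≤ (Nat.log 2 N : ℝ) := Nat.cast_nonneg _
      linarith
    have h3 : ((Nat.log 2 N : ℝ) + 1) ^ c1 ≤ ((Nat.log 2 N : ℝ) + 1) ^ (2 ^ (c1 + 1)) :=
      pow_le_pow_right₀ hL1 (by omega)
    have h4 : (c1 : ℝ) * 2 ≤ ((2 ^ (c1 + 1) : ℕ) : ℝ) := by
      have : c1 * 2 ≤ 2 ^ (c1 + 1) := by
        rw [pow_succ]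
        exact Nat.mul_le_mul_right _ Nat.lt_two_pow_self.le
      exact_mod_cast this
    set μ := min (((m : ℝ) + 1) ^ (1 / 4 : ℝ)) (((n : ℝ) + 1) ^ (1 / 2 : ℝ)) with hμ
    have hμ0 : 0 ≤ μ := by
      have : (1 : ℝ) ≤ q := by exact_mod_cast hqa
      linarith
    calc (D : ℝ) ≤ c1 * ((Nat.log 2 N : ℝ) + 1) ^ c1 * q := h1
      _ ≤ c1 * ((Nat.log 2 N : ℝ) + 1) ^ (2 ^ (c1 + 1)) * (2 * μ) := by
          apply mul_le_mul
          · exact mul_le_mul_of_nonneg_left h3 (Nat.cast_nonneg _)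
          · exact hqd
          · positivity
          · positivity
      _ = (c1 * 2) * (((Nat.log 2 N : ℝ) + 1) ^ (2 ^ (c1 + 1)) * μ) := by ring
      _ ≤ ((2 ^ (c1 + 1) : ℕ) : ℝ) * (((Nat.log 2 N : ℝ) + 1) ^ (2 ^ (c1 + 1)) * μ) := by
          apply mul_le_mul_of_nonneg_right h4
          positivity
      _ = _ := by ring
  · rw [hB', hB, outB_eq hNl hev hv]

end Pool.Agent.LibCCQ
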