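import Pool.Agent.LibCCQ.P5Sem

/-!
Positions and lines of a comparator circuit.
-/

namespace Pool.Agent.LibCCQ

open Pool.Agent.LibCC Relation Finset

variable {n m : ℕ}

/-- An arc leads from the comparator `h` to the comparator `g`. -/
def EC (C : CompCircuit n m) (h g : Fin m) : Prop := ∃ b c, C.inp (g, b) = Sum.inr (h, c)

/-- `f` is an outgoing arc that continues the line of `e`. -/
def ED (C : CompCircuit n m) (e f : Arc n m) : Prop := ∃ p, C.inp p = e ∧ f = Sum.inr p

open Classical in
/-- number of ancestors -/
noncomputable def anc (C : CompCircuit n m) (g : Fin m) : ℕ :=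
  (univ.filter (fun h : Fin m => ReflTransGen (EC C) h g)).card

/-- `h` comes before `g` -/
def Bef (C : CompCircuit n m) (h g : Fin m) : Prop :=
  anc C h < anc C g ∨ (anc C h = anc C g ∧ h < g)

open Classical in
/-- number of comparators that come before `g` -/
noncomputable def rkn (C : CompCircuit n m) (g : Fin m) : ℕ :=
  (univ.filter (fun h : Fin m => Bef C h g)).card

theorem anc_lt {C : CompCircuit n m} {h g : Fin m} (hE : EC C h g) : anc C h < anc C g := by
  classical
  obtain ⟨ord, hord⟩ := C.acyclic
  have hmono : ∀ a b, ReflTransGen (EC C) a b → ord a ≤ ord b := by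
    intro a b hab
    induction hab with
    | refl => exact le_rfl
    | tail _ h1 ih =>
      obtain ⟨b', c', h2⟩ := h1
      exact ih.trans (hord _ _ _ _ h2).le
  unfold anc
  apply card_lt_card
  rw [ssubset_iff_of_subset]
  · refine ⟨g, by simp [ReflTransGen.refl], ?_⟩
    simp only [mem_filter, mem_univ, true_and]
    intro h1
    have h2 := hmono _ _ h1
    obtain ⟨b', c', h3⟩ := hE
    have := hord _ _ _ _ h3
    omega
  · intro k hk
    simp only [mem_filter, mem_univ, true_and] at hk ⊢
    exact hk.tail hE

theorem rkn_lt {C : CompCircuit n m} {h g : Fin m} (hB : Bef C h g) : rkn C h < rkn C g := by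
  classical
  unfold rkn
  apply card_lt_card
  rw [ssubset_iff_of_subset]
  · refine ⟨h, by simpa using hB, ?_⟩
    simp only [mem_filter, mem_univ, true_and]
    rintro (h1 | ⟨_, h1⟩)
    · omega
    · exact lt_irrefl _ h1
  · intro k hk
    simp only [mem_filter, mem_univ, true_and] at hk ⊢
    rcases hk with h1 | ⟨h1, h2⟩
    · rcases hB with h3 | ⟨h3, h4⟩
      · exact Or.inl (h1.trans h3)
      · exact Or.inl (by omega)
    · rcases hB with h3 | ⟨h3, h4⟩
      · exact Or.inl (by omega)
      · exact Or.inr ⟨by omega, h2.trans h4⟩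

theorem rkn_lt_m (C : CompCircuit n m) (g : Fin m) : rkn C g < m := by
  classical
  have h1 : (univ.filter (fun h : Fin m => Bef C h g)) ⊂ univ := by
    rw [ssubset_iff_of_subset (subset_univ _)]
    refine ⟨g, mem_univ _, ?_⟩
    simp only [mem_filter, mem_univ, true_and]
    rintro (h1 | ⟨_, h1⟩)
    · omega
    · exact lt_irrefl _ h1
  have h2 := card_lt_card h1
  simpa [rkn] using h2

theorem rkn_inj (C : CompCircuit n m) {h g : Fin m} (hhg : rkn C h = rkn C g) : h = g := by
  by_contra hne
  have h1 : Bef C h g ∨ Bef C g h := by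
    rcases lt_trichotomy (anc C h) (anc C g) with h1 | h1 | h1
    · exact Or.inl (Or.inl h1)
    · rcases lt_or_gt_of_ne hne with h2 | h2
      · exact Or.inl (Or.inr ⟨h1, h2⟩)
      · exact Or.inr (Or.inr ⟨h1.symm, h2⟩)
    · exact Or.inr (Or.inl h1)
  rcases h1 with h1 | h1
  · have := rkn_lt h1; omega
  · have := rkn_lt h1; omega

theorem root_exists (C : CompCircuit n m) (a : Arc n m) :
    ∃ i, ReflTransGen (ED C) (Sum.inl i) a := by
  obtain ⟨ord, hord⟩ := C.acyclic
  have key : ∀ k : ℕ, ∀ g, ord g < k → ∀ c, ∃ i, ReflTransGen (ED C) (Sum.inl i) (Sum.inr (g, c)) := by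
    intro k
    induction k with
    | zero => intro g hg; omega
    | succ k ih =>
      intro g hg c
      have hstep : ED C (C.inp (g, c)) (Sum.inr (g, c)) := ⟨(g, c), rfl, rfl⟩
      rcases hb : C.inp (g, c) with i | ⟨h, c'⟩
      · rw [hb] at hstep
        exact ⟨i, ReflTransGen.single hstep⟩
      · rw [hb] at hstep
        obtain ⟨i, hi⟩ := ih h (by have := hord g c h c' hb; omega) c'
        exact ⟨i, hi.tail hstep⟩
  rcases a with i | ⟨g, c⟩
  · exact ⟨i, ReflTransGen.refl⟩
  · exact key (ord g + 1) g (Nat.lt_succ_self _) c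

theorem root_src {C : CompCircuit n m} {i j : Fin n} (h : ReflTransGen (ED C) (Sum.inl i) (Sum.inl j)) :
    i = j := by
  rcases h.cases_tail with h1 | ⟨b, _, p, _, h2⟩
  · exact (Sum.inl.inj h1).symm
  · simp at h2

theorem root_gate {C : CompCircuit n m} {i : Fin n} {p : Fin m × Bool}
    (h : ReflTransGen (ED C) (Sum.inl i) (Sum.inr p)) :
    ReflTransGen (ED C) (Sum.inl i) (C.inp p) := by
  rcases h.cases_tail with h1 | ⟨b, hb, p', h2, h3⟩
  · simp at h1
  · rw [Sum.inr.inj h3, h2]
    exact hb

theorem root_unique (C : CompCircuit n m) (a : Arc n m) {i j : Fin n}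
    (hi : ReflTransGen (ED C) (Sum.inl i) a) (hj : ReflTransGen (ED C) (Sum.inl j) a) : i = j := by
  obtain ⟨ord, hord⟩ := C.acyclic
  have key : ∀ k : ℕ, ∀ g, ord g < k → ∀ c, ReflTransGen (ED C) (Sum.inl i) (Sum.inr (g, c)) →
      ReflTransGen (ED C) (Sum.inl j) (Sum.inr (g, c)) → i = j := by
    intro k
    induction k with
    | zero => intro g hg; omega
    | succ k ih =>
      intro g hg c h1 h2
      have h3 := root_gate h1
      have h4 := root_gate h2
      rcases hb : C.inp (g, c) with i' | ⟨h, c'⟩
      · rw [hb] at h3 h4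
        rw [root_src h3, root_src h4]
      · rw [hb] at h3 h4
        exact ih h (by have := hord g c h c' hb; omega) c' h3 h4
  rcases a with i' | ⟨g, c⟩
  · rw [root_src hi, root_src hj]
  · exact key (ord g + 1) g (Nat.lt_succ_self _) c hi hj

/-- The canonical positions and lines. -/
noncomputable def netData (C : CompCircuit n m) : NetData C where
  rk g := ⟨rkn C g, rkn_lt_m C g⟩
  rk_inj := by
    intro h g hhg
    exact rkn_inj C (congrArg Fin.val hhg)
  rk_lt := by
    intro g b h c hh
    exact rkn_lt (Or.inl (anc_lt ⟨b, c, hh⟩))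
  ln a := (root_exists C a).choose
  ln_src := by
    intro i
    exact root_src (root_exists C (Sum.inl i)).choose_spec
  ln_gate := by
    intro p
    exact root_unique C (C.inp p) (root_gate (root_exists C (Sum.inr p)).choose_spec)
      (root_exists C (C.inp p)).choose_spec

theorem netData_ln {C : CompCircuit n m} (a : Arc n m) (i : Fin n) :
    ReflTransGen (ED C) (Sum.inl i) a ↔ (netData C).ln a = i := by
  constructor
  · intro h
    exact root_unique C a (root_exists C a).choose_spec h
  · intro h
    rw [← h]
    exact (root_exists C a).choose_spec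

theorem netData_rk (C : CompCircuit n m) (g : Fin m) : ((netData C).rk g : ℕ) = rkn C g := rfl

/-- The network of a circuit. -/
noncomputable def netOf (C : CompCircuit n m) : Net (Fin n) m := fun t =>
  (fun g => ((netData C).ln (Sum.inr (g, false)), (netData C).ln (Sum.inr (g, true))))
    (Finite.injective_iff_surjective.1 (netData C).rk_inj t).choose

theorem netOf_rk (C : CompCircuit n m) (g : Fin m) : netOf C ((netData C).rk g) =
    ((netData C).ln (Sum.inr (g, false)), (netData C).ln (Sum.inr (g, true))) := by
  unfold netOf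
  have h := (Finite.injective_iff_surjective.1 (netData C).rk_inj ((netData C).rk g)).choose_spec
  rw [(netData C).rk_inj h]

theorem rk_surj (C : CompCircuit n m) (t : Fin m) : ∃ g, (netData C).rk g = t :=
  Finite.injective_iff_surjective.1 (netData C).rk_inj t

theorem st_netOf {C : CompCircuit n m} {x : Fin n → Bool} {v : Arc n m → Bool} (hv : C.IsVal x v)
    (a : Arc n m) : st (netOf C) x ((netData C).birth a) ((netData C).ln a) = v a :=
  (netData C).st_out (netOf_rk C) hv a

end Pool.Agent.LibCCQ
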