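import Pool.Agent.LibCCQ.Defs

/-!
Comparator circuits (arbitrary numbering) as comparator networks on `n` lines: semantics.
-/

namespace Pool.Agent.LibCCQ

open Pool.Agent.LibCC

variable {n m : ℕ}

theorem st_zero {ι : Type} [DecidableEq ι] (N : Net ι m) (w : ι → Bool) : st N w 0 = w := rfl

theorem st_succ {ι : Type} [DecidableEq ι] (N : Net ι m) (w : ι → Bool) {t : ℕ} (h : t < m) (p : ι) :
    st N w (t + 1) p = if (N ⟨t, h⟩).1 = (N ⟨t, h⟩).2 then st N w t p
      else if p = (N ⟨t, h⟩).2 then (st N w t (N ⟨t, h⟩).1 || st N w t (N ⟨t, h⟩).2)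
      else if p = (N ⟨t, h⟩).1 then (st N w t (N ⟨t, h⟩).1 && st N w t (N ⟨t, h⟩).2)
      else st N w t p := by
  unfold st
  simp only [cst, dif_pos h, stepW]
  rfl

/-- Data turning a comparator circuit into a network. -/
structure NetData (C : CompCircuit n m) where
  /-- position of a comparator -/
  rk : Fin m → Fin m
  rk_inj : Function.Injective rk
  rk_lt : ∀ g b h c, C.inp (g, b) = Sum.inr (h, c) → rk h < rk g
  /-- line of an arc -/
  ln : Arc n m → Fin n
  ln_src : ∀ i, ln (Sum.inl i) = i
  ln_gate : ∀ p, ln (Sum.inr p) = ln (C.inp p)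

/-- time of birth of an arc -/
def NetData.birth {C : CompCircuit n m} (D : NetData C) : Arc n m → ℕ
  | Sum.inl _ => 0
  | Sum.inr p => (D.rk p.1 : ℕ) + 1

/-- the arc is alive before step `t` -/
def NetData.Cur {C : CompCircuit n m} (D : NetData C) (t : ℕ) (a : Arc n m) : Prop :=
  D.birth a ≤ t ∧ ∀ p, C.inp p = a → t ≤ D.rk p.1

theorem NetData.cur_inp {C : CompCircuit n m} (D : NetData C) (p : Fin m × Bool) :
    D.Cur (D.rk p.1) (C.inp p) := by
  constructor
  · rcases h : C.inp p with i | ⟨g, c⟩
    · exact Nat.zero_le _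
    · have := D.rk_lt p.1 p.2 g c h
      exact this
  · intro p' h'
    rw [C.inj h']

/-- Two arcs which are alive at the same time are on different lines. -/
theorem NetData.cur_inj {C : CompCircuit n m} (D : NetData C) (t : ℕ) :
    ∀ a b, D.Cur t a → D.Cur t b → D.ln a = D.ln b → a = b := by
  induction t with
  | zero =>
    intro a b ha hb hab
    rcases a with i | ⟨g, c⟩
    · rcases b with j | ⟨g', c'⟩
      · rw [D.ln_src, D.ln_src] at hab
        rw [hab]
      · have := hb.1
        simp [NetData.birth] at this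
    · have := ha.1
      simp [NetData.birth] at this
  | succ t ih =>
    -- an arc alive before step `t + 1` is new or was alive before step `t`
    have key : ∀ a, D.Cur (t + 1) a → ∃ a', D.Cur t a' ∧ D.ln a' = D.ln a ∧
        (a' = a ∨ ∃ p, a = Sum.inr p ∧ a' = C.inp p ∧ (D.rk p.1 : ℕ) = t) := by
      intro a ha
      rcases a with i | p
      · exact ⟨Sum.inl i, ⟨Nat.zero_le _, fun p hp => by
          have := ha.2 p hp; omega⟩, rfl, Or.inl rfl⟩
      · by_cases h : (D.rk p.1 : ℕ) = t
        · refine ⟨C.inp p, ?_, (D.ln_gate p).symm, Or.inr ⟨p, rfl, rfl, h⟩⟩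
          have := D.cur_inp p
          rw [h] at this
          exact this
        · refine ⟨Sum.inr p, ⟨?_, fun p' hp' => ?_⟩, rfl, Or.inl rfl⟩
          · have := ha.1
            simp only [NetData.birth] at this ⊢
            omega
          · have := ha.2 p' hp'; omega
    intro a b ha hb hab
    obtain ⟨a', ha', hla, ha2⟩ := key a ha
    obtain ⟨b', hb', hlb, hb2⟩ := key b hb
    have h1 : a' = b' := ih a' b' ha' hb' (by rw [hla, hlb, hab])
    rcases ha2 with rfl | ⟨p, rfl, hp1, hp2⟩
    · rcases hb2 with rfl | ⟨p', rfl, hp1', hp2'⟩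
      · exact h1
      · have := ha.2 p' (by rw [← hp1', h1])
        omega
    · rcases hb2 with rfl | ⟨p', rfl, hp1', hp2'⟩
      · have := hb.2 p (by rw [← hp1, h1])
        omega
      · rw [C.inj (hp1.symm.trans (h1.trans hp1'))]

/-- The network carries the values of the arcs. -/
theorem NetData.st_eq {C : CompCircuit n m} (D : NetData C) {N : Net (Fin n) m}
    (hN : ∀ g, N (D.rk g) = (D.ln (Sum.inr (g, false)), D.ln (Sum.inr (g, true))))
    {x : Fin n → Bool} {v : Arc n m → Bool} (hv : C.IsVal x v) (t : ℕ) (ht : t ≤ m) :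
    ∀ a, D.Cur t a → st N x t (D.ln a) = v a := by
  induction t with
  | zero =>
    intro a ha
    rcases a with i | ⟨g, c⟩
    · rw [D.ln_src, hv.source]
      rfl
    · have := ha.1
      simp [NetData.birth] at this
  | succ t ih =>
    have ih := ih (by omega)
    have htm : t < m := by omega
    obtain ⟨g, hg⟩ := (Finite.injective_iff_surjective.1 D.rk_inj) ⟨t, htm⟩
    have hgt : (D.rk g : ℕ) = t := by rw [hg]
    have hN' := hN g
    rw [hg] at hN'
    have hcur : ∀ b, D.Cur t (C.inp (g, b)) := by
      intro b
      have := D.cur_inp (g, b)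
      rw [hgt] at this
      exact this
    have hne : D.ln (Sum.inr (g, false)) ≠ D.ln (Sum.inr (g, true)) := by
      intro h
      rw [D.ln_gate, D.ln_gate] at h
      have := C.inj (D.cur_inj t _ _ (hcur false) (hcur true) h)
      simp at this
    have hval : ∀ b, st N x t (D.ln (Sum.inr (g, b))) = v (C.inp (g, b)) := by
      intro b
      rw [D.ln_gate]
      exact ih _ (hcur b)
    intro a ha
    rw [st_succ N x htm, hN']
    simp only [hne, if_false]
    by_cases ha1 : ∃ c, a = Sum.inr (g, c)
    · obtain ⟨c, rfl⟩ := ha1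
      cases c
      · rw [if_neg hne, if_pos rfl, hval, hval, hv.conj]
      · rw [if_pos rfl, hval, hval, hv.disj]
    · have hcura : D.Cur t a := by
        refine ⟨?_, fun p hp => by have := ha.2 p hp; omega⟩
        rcases a with i | p
        · exact Nat.zero_le _
        · have h1 := ha.1
          simp only [NetData.birth] at h1 ⊢
          by_contra hc
          have h2 : (D.rk p.1 : ℕ) = t := by omega
          apply ha1
          refine ⟨p.2, ?_⟩
          have : D.rk p.1 = D.rk g := Fin.ext (by rw [h2, hgt])
          rw [← D.rk_inj this]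
      have hnl : ∀ b, D.ln a ≠ D.ln (Sum.inr (g, b)) := by
        intro b h
        rw [D.ln_gate] at h
        have h1 := D.cur_inj t _ _ hcura (hcur b) h
        have h2 := ha.2 (g, b) h1.symm
        simp only [hgt] at h2
        omega
      rw [if_neg (hnl true), if_neg (hnl false)]
      exact ih a hcura

/-- The value of an output arc is found on its line after the step of its comparator. -/
theorem NetData.st_out {C : CompCircuit n m} (D : NetData C) {N : Net (Fin n) m}
    (hN : ∀ g, N (D.rk g) = (D.ln (Sum.inr (g, false)), D.ln (Sum.inr (g, true))))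
    {x : Fin n → Bool} {v : Arc n m → Bool} (hv : C.IsVal x v) (a : Arc n m) :
    st N x (D.birth a) (D.ln a) = v a := by
  apply D.st_eq hN hv
  · rcases a with i | p
    · exact Nat.zero_le _
    · exact (D.rk p.1).isLt
  · refine ⟨le_rfl, fun p hp => ?_⟩
    subst hp
    exact (D.cur_inp p).1

end Pool.Agent.LibCCQ
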