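import Pool.Agent.LibCCQ.Sub
import Pool.Agent.LibCCQ.Defs

/-!
Interface of the random cuts for comparator circuits with arbitrary wiring.
-/

namespace Pool.Agent.LibCCQ

open Pool.Agent.LibCC

variable {n m : ℕ}

/-- `v` is the run of `C` on the source bits `x` in which the ports with `B` read `r`. -/
structure IsCut (C : CompCircuit n m) (B : Fin m × Bool → Bool) (r : Bool) (x : Fin n → Bool)
    (v : Arc n m → Bool) : Prop where
  src : ∀ i, v (Sum.inl i) = x i
  opn : ∀ a : Fin m × Bool, v (Sum.inr a) = comb a.2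
    (if B (a.1, false) then r else v (C.inp (a.1, false)))
    (if B (a.1, true) then r else v (C.inp (a.1, true)))

/-- Bits describing a comparator circuit and its source bits. -/
abbrev LBit (n m : ℕ) : Type := ((Fin m × Bool) × Arc n m) ⊕ Fin n

def lenc (C : CompCircuit n m) (x : Fin n → Bool) : LBit n m → Bool
  | Sum.inl (p, a) => decide (C.inp p = a)
  | Sum.inr i => x i

/-- In depth `q` up to logarithms one finds at most `K` cut ports, `K * q ^ 2 ≥ 16 * m`, and
the two runs in which the cut ports read `0` and `1`. -/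
def Splus : Prop :=
  ∃ c : ℕ, ∀ n m q l K : ℕ, 1 ≤ l → 1 ≤ q → q ≤ 2 ^ l → n + 4 * m + 1 ≤ 2 ^ l →
    16 * m ≤ K * q ^ 2 → K ≤ 2 ^ l →
    ∃ f : (LBit n m → Bool) → (Bool × Arc n m) ⊕ (Fin K × (Fin m × Bool)) → Bool, Cp c l q f ∧
      ∀ (C : CompCircuit n m) (x : Fin n → Bool),
        Slots (fun a => f (lenc C x) (Sum.inr a)) ∧
        ∀ r : Bool, IsCut C (cuts (fun a => f (lenc C x) (Sum.inr a))) r x
          (fun a => f (lenc C x) (Sum.inl (r, a)))

end Pool.Agent.LibCCQ
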