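import Pool.Agent.LibCC88.UnionEval
import Pool.Agent.LibCCQ.Splus

/-!
Interface of the random cuts, union form: marks for the arcs of a comparator circuit, with a set
of active comparators.
-/

namespace Pool.Agent.LibCCQ

open Pool.Agent.LibCC Pool.Agent.LibCC89 Finset

variable {n m : ℕ}

/-- The bits `y (r, a)` are certificates for the value `r` of the arc `a`; they contain all
certificates of the runs with cut ports of some set `K` of ports, and `K` contains few ports of
active comparators. -/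
structure Marked (C : CompCircuit n m) (x : Fin n → Bool) (act : Fin m → Bool) (q : ℕ)
    (y : Bool × Arc n m → Bool) : Prop where
  sound : ∀ v, C.IsVal x v → ∀ r a, y (r, a) = true → v a = r
  complete : ∃ K : Fin m × Bool → Bool,
    q ^ 2 * (univ.filter (fun p : Fin m × Bool => K p = true ∧ act p.1 = true)).card ≤
      16 * (univ.filter (fun g => act g = true)).card ∧
    ∀ r w, IsCut C K (!r) x w → ∀ a, w a = r → y (r, a) = true

theorem Marked.of_marks {C : CompCircuit n m} {x : Fin n → Bool} {act : Fin m → Bool} {q : ℕ}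
    {y : Bool × Arc n m → Bool} (h : LibCC88.Marks C x act q y) : Marked C x act q y := by
  refine ⟨h.sound, ?_⟩
  obtain ⟨K, hK1, hK2⟩ := h.complete
  refine ⟨K, hK1, fun r w hw a ha => ?_⟩
  let w' : Arc (n + 2 * m) m → Bool := fun a' => match a' with
    | Sum.inl i => LibCC88.ext x (!r) i
    | Sum.inr a => w (Sum.inr a)
  have hup : ∀ a, w' (LibCC88.up a) = w a := by
    intro a
    rcases a with i | a
    · change LibCC88.ext x (!r) (Fin.castAdd (2 * m) i) = w (Sum.inl i)
      rw [hw.src]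
      unfold LibCC88.ext
      rw [dif_pos (show ((Fin.castAdd (2 * m) i : Fin (n + 2 * m)) : ℕ) < n from i.isLt)]
      rfl
    · rfl
  have hin : ∀ p, w' ((LibCC88.cutC C K).inp p) = if K p then !r else w (C.inp p) := by
    intro p
    rw [LibCC88.cutC_inp]
    by_cases hK : K p = true
    · rw [if_pos hK, if_pos hK]
      change LibCC88.ext x (!r) (LibCC88.pv p) = !r
      unfold LibCC88.ext
      rw [dif_neg (by simp [LibCC88.pv])]
    · rw [if_neg hK, if_neg hK, hup]
  have hval : (LibCC88.cutC C K).IsVal (LibCC88.ext x (!r)) w' := by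
    refine ⟨fun i => rfl, fun g => ?_, fun g => ?_⟩
    · rw [hin, hin]
      exact hw.opn (g, false)
    · rw [hin, hin]
      exact hw.opn (g, true)
  exact hK2 r w' hval a (by rw [hup]; exact ha)

theorem lenc_eq (C : CompCircuit n m) (x : Fin n → Bool) : LibCC88.lenc C x = lenc C x := by
  funext b
  rcases b with p | i <;> rfl

theorem comp_toLev {α β : Type} [Fintype β] {W d : ℕ} {f : (α → Bool) → β → Bool}
    (h : LibCC88.Comp α W d f) (hd : 1 ≤ d) (hβ : Fintype.card β ≤ W) : Lev α W (d + 1) β f := by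
  obtain ⟨B, o, hB⟩ := h
  obtain ⟨e, rfl⟩ : ∃ e, d = e + 1 := ⟨d - 1, by omega⟩
  exact Lev.congr (lev_sel (lev_of_circuit B e) hβ o) (fun x b => (hB x b).symm)

theorem xadd {X a b i j : ℕ} (hX : 2 ≤ X) (ha : a ≤ X ^ i) (hb : b ≤ X ^ j) :
    a + b ≤ X ^ (i + j + 1) := by
  have h1 : X ^ i ≤ X ^ (i + j) := Nat.pow_le_pow_right (by omega) (by omega)
  have h2 : X ^ j ≤ X ^ (i + j) := Nat.pow_le_pow_right (by omega) (by omega)
  calc a + b ≤ X ^ (i + j) * 2 := by omega
    _ ≤ X ^ (i + j) * X := Nat.mul_le_mul_left _ hX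
    _ = X ^ (i + j + 1) := by rw [pow_succ]

theorem xmul {X a b i j : ℕ} (ha : a ≤ X ^ i) (hb : b ≤ X ^ j) : a * b ≤ X ^ (i + j) := by
  rw [pow_add]
  exact Nat.mul_le_mul ha hb

theorem splusAct0 : ∃ c : ℕ, ∀ n m q l : ℕ, 1 ≤ l → 1 ≤ q → q ≤ n + 2 * m + 1 →
    n + 4 * m + 1 ≤ 2 ^ l →
    ∃ f : ((LBit n m ⊕ Fin m) → Bool) → Bool × Arc n m → Bool, Cp c l q f ∧
      ∀ (C : CompCircuit n m) (x : Fin n → Bool) (act : Fin m → Bool),
        Marked C x act q (f (Sum.elim (lenc C x) act)) := by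
  obtain ⟨c0, hM⟩ := LibCC88.masterI
  refine ⟨c0 * 2 ^ c0 * 64 + 8 * c0 + 200, fun n m q l hl hq hqN hN => ?_⟩
  have hJ1 : 1 ≤ LibCC88.Jq (lg (n + 2 * m) m) q :=
    Nat.mul_pos hq (Nat.mul_pos (by norm_num) (lg_pos _ _))
  obtain ⟨D0, B, o, hD0, hB⟩ := hM (n + 2 * m) m (LibCC88.Jq (lg (n + 2 * m) m) q) hJ1
    (LibCC88.J_le n m q hqN)
  obtain ⟨f, hf1, hf2⟩ := LibCC88.unionEval_one n m q l hq hqN hN B o hB
  have hX : 2 ≤ 2 ^ l := by
    calc 2 = 2 ^ 1 := rfl
      _ ≤ 2 ^ l := Nat.pow_le_pow_right (by norm_num) hl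
  have e1 : Fintype.card (LibCC88.LB n m ⊕ Fin m) = 2 * m * (n + 2 * m) + n + m := by
    rw [Fintype.card_sum, LibCC88.card_LB, Fintype.card_fin]
  have e2 : Fintype.card (LibCC88.CJ n m) = (2 * m * (n + 2 * m) + n + m + 1) *
      (2 * (n + 2 * m + 2 * m)) := by
    rw [Fintype.card_prod, Fintype.card_prod, Fintype.card_bool, card_arc, Fintype.card_fin]
  have e4 : Fintype.card (LibCCV.Bit (n + 2 * m) m) = 2 * m * (n + 2 * m + 2 * m) +
      (n + 2 * m + (n + 2 * m + 2 * m)) := LibCC88.card_bit _ _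
  have e5 : Fintype.card (Bool × Arc n m) = 2 * (n + 2 * m) := by
    rw [Fintype.card_prod, Fintype.card_bool, card_arc]
  have hXX : (n + 4 * m + 1) * (n + 4 * m + 1) ≤ (2 ^ l) ^ 2 := by
    rw [pow_two]
    exact Nat.mul_le_mul hN hN
  have b1 : 2 * m * (n + 2 * m) + n + m ≤ (2 ^ l) ^ 2 := le_trans (by nlinarith) hXX
  have b1' : 2 * m * (n + 2 * m) + n + m + 1 ≤ (2 ^ l) ^ 2 := le_trans (by nlinarith) hXX
  have b2 : 2 * (n + 2 * m + 2 * m) ≤ (2 ^ l) ^ 2 := by
    rw [pow_two]
    exact Nat.mul_le_mul hX (by omega)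
  have b4 : 2 * m * (n + 2 * m + 2 * m) + (n + 2 * m + (n + 2 * m + 2 * m)) ≤ (2 ^ l) ^ 2 :=
    le_trans (by nlinarith) hXX
  have b5 : 2 * (n + 2 * m) ≤ (2 ^ l) ^ 2 := by
    rw [pow_two]
    exact Nat.mul_le_mul hX (by omega)
  have b6 : c0 * (n + 2 * m + 2 * m + 1) ^ c0 ≤ (2 ^ l) ^ (2 * c0) := by
    rw [show 2 * c0 = c0 + c0 by ring, pow_add]
    refine Nat.mul_le_mul ?_ (Nat.pow_le_pow_left (by omega) _)
    calc c0 ≤ 2 ^ c0 := Nat.lt_two_pow_self.le
      _ ≤ (2 ^ l) ^ c0 := Nat.pow_le_pow_left hX _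
  have b7 : 2 ^ (4 * l + 9) ≤ (2 ^ l) ^ 13 := by
    rw [← pow_mul]
    exact Nat.pow_le_pow_right (by norm_num) (by omega)
  have b8 : (1 : ℕ) ≤ (2 ^ l) ^ 0 := by simp
  have b9 : (2 : ℕ) ≤ (2 ^ l) ^ 1 := by simpa using hX
  have bW : 2 * (Fintype.card (LibCC88.LB n m ⊕ Fin m) + Fintype.card (LibCC88.CJ n m) *
          (Fintype.card (LibCCV.Bit (n + 2 * m) m) + Fintype.card (LibCCV.Bit (n + 2 * m) m) +
            (c0 * (n + 2 * m + 2 * m + 1) ^ c0 + Fintype.card Unit + Fintype.card Unit))) +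
          (Fintype.card (LibCC88.LB n m ⊕ Fin m) + Fintype.card (LibCC88.CJ n m)) +
          Fintype.card (Bool × Arc n m) * 2 ^ (4 * l + 9) ≤ (2 ^ l) ^ (2 * c0 + 100) := by
    rw [e1, e2, e4, e5, Fintype.card_unit]
    refine (xadd hX (xadd hX (xmul b9 (xadd hX b1 (xmul (xmul b1' b2) (xadd hX (xadd hX b4 b4)
      (xadd hX (xadd hX b6 b8) b8))))) (xadd hX b1 (xmul b1' b2))) (xmul b5 b7)).trans ?_
    exact Nat.pow_le_pow_right (by omega) (by omega)
  have hcard : Fintype.card (Bool × Arc n m) ≤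
      2 * (Fintype.card (LibCC88.LB n m ⊕ Fin m) + Fintype.card (LibCC88.CJ n m) *
          (Fintype.card (LibCCV.Bit (n + 2 * m) m) + Fintype.card (LibCCV.Bit (n + 2 * m) m) +
            (c0 * (n + 2 * m + 2 * m + 1) ^ c0 + Fintype.card Unit + Fintype.card Unit))) +
          (Fintype.card (LibCC88.LB n m ⊕ Fin m) + Fintype.card (LibCC88.CJ n m)) +
          Fintype.card (Bool × Arc n m) * 2 ^ (4 * l + 9) := by
    have h1 : Fintype.card (Bool × Arc n m) ≤ Fintype.card (Bool × Arc n m) * 2 ^ (4 * l + 9) :=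
      Nat.le_mul_of_pos_right _ (by positivity)
    omega
  have hL := comp_toLev hf1 (by omega) hcard
  refine ⟨f, ⟨_, ?_, lev_mono ?_ hL⟩, fun C x act => Marked.of_marks (by
    rw [← lenc_eq]
    exact hf2 C x act)⟩
  · have h1 : lg (n + 2 * m) m ≤ 2 * l := by
      unfold lg
      have h2 : Nat.log 2 (n + 2 * m + 2 * m + 1) ≤ Nat.log 2 (2 ^ l) :=
        Nat.log_mono_right (by omega)
      rw [Nat.log_pow (by norm_num)] at h2
      omega
    set c := c0 * 2 ^ c0 * 64 + 8 * c0 + 200 with hc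
    have h2 : D0 ≤ c0 * 2 ^ c0 * 64 * (l ^ c * q) := by
      refine hD0.trans ?_
      calc c0 * lg (n + 2 * m) m ^ c0 * LibCC88.Jq (lg (n + 2 * m) m) q
          ≤ c0 * (2 * l) ^ c0 * (q * (32 * (2 * l))) := by
            refine Nat.mul_le_mul (Nat.mul_le_mul_left _ (Nat.pow_le_pow_left h1 _)) ?_
            exact Nat.mul_le_mul_left _ (Nat.mul_le_mul_left _ h1)
        _ = c0 * 2 ^ c0 * 64 * (l ^ (c0 + 1) * q) := by rw [mul_pow, pow_succ]; ring
        _ ≤ _ := Nat.mul_le_mul_left _ (Nat.mul_le_mul_right _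
          (Nat.pow_le_pow_right hl (by omega)))
    have h3 : l ≤ l ^ c * q := by
      calc l ≤ l ^ c := Nat.le_self_pow (by omega) l
        _ ≤ l ^ c * q := Nat.le_mul_of_pos_right _ hq
    have h4 : 1 ≤ l ^ c * q := Nat.mul_pos (Nat.pow_pos (by omega)) hq
    have h5 : c * l ^ c * q = c0 * 2 ^ c0 * 64 * (l ^ c * q) + (8 * c0 + 200) * (l ^ c * q) := by
      rw [mul_assoc]
      nth_rewrite 1 [hc]
      ring
    rw [h5]
    have h6 : 200 * (l ^ c * q) ≤ (8 * c0 + 200) * (l ^ c * q) := Nat.mul_le_mul_right _ (by omega)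
    omega
  · refine bW.trans ?_
    rw [← pow_mul]
    refine Nat.pow_le_pow_right (by norm_num) ?_
    rw [mul_comm l]
    exact Nat.mul_le_mul_right _ (by omega)

/-! ### Padding with unused source nodes -/

/-- The arcs of a circuit as arcs of the padded circuit. -/
def upk (k : ℕ) : Arc n m → Arc (n + k) m
  | Sum.inl i => Sum.inl (Fin.castAdd k i)
  | Sum.inr a => Sum.inr a

theorem upk_inj (k : ℕ) : Function.Injective (upk k : Arc n m → Arc (n + k) m) := by
  intro a b h
  rcases a with i | a <;> rcases b with j | b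
  · simp only [upk, Sum.inl.injEq] at h
    rw [Fin.castAdd_inj] at h
    rw [h]
  · simp [upk] at h
  · simp [upk] at h
  · simp only [upk, Sum.inr.injEq] at h
    rw [h]

/-- The circuit with `k` unused source nodes. -/
def padC (k : ℕ) (C : CompCircuit n m) : CompCircuit (n + k) m where
  inp p := upk k (C.inp p)
  inj p p' h := C.inj (upk_inj k h)
  acyclic := by
    obtain ⟨ord, hord⟩ := C.acyclic
    refine ⟨ord, fun g b h c hh => ?_⟩
    rcases hb : C.inp (g, b) with i | a
    · rw [hb] at hh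
      simp [upk] at hh
    · rw [hb] at hh
      simp only [upk, Sum.inr.injEq] at hh
      exact hord g b h c (by rw [hb, hh])

/-- The source bits of the padded circuit. -/
def padx (k : ℕ) (x : Fin n → Bool) (i : Fin (n + k)) : Bool :=
  if h : (i : ℕ) < n then x ⟨i, h⟩ else false

theorem padx_castAdd (k : ℕ) (x : Fin n → Bool) (i : Fin n) :
    padx k x (Fin.castAdd k i) = x i := by
  unfold padx
  rw [dif_pos (show ((Fin.castAdd k i : Fin (n + k)) : ℕ) < n from i.isLt)]
  rfl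

/-- The bits of the padded circuit. -/
def padφ (n m k : ℕ) : (LBit (n + k) m ⊕ Fin m) → (LBit n m ⊕ Fin m) ⊕ Bool
  | Sum.inl (Sum.inl (p, Sum.inl i)) => if h : (i : ℕ) < n then
      Sum.inl (Sum.inl (Sum.inl (p, Sum.inl ⟨i, h⟩))) else Sum.inr false
  | Sum.inl (Sum.inl (p, Sum.inr a)) => Sum.inl (Sum.inl (Sum.inl (p, Sum.inr a)))
  | Sum.inl (Sum.inr i) => if h : (i : ℕ) < n then Sum.inl (Sum.inl (Sum.inr ⟨i, h⟩)) else
      Sum.inr false
  | Sum.inr g => Sum.inl (Sum.inr g)

theorem padφ_spec (k : ℕ) (C : CompCircuit n m) (x : Fin n → Bool) (act : Fin m → Bool)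
    (b : LBit (n + k) m ⊕ Fin m) :
    Sum.elim (Sum.elim (lenc C x) act) id (padφ n m k b) =
      Sum.elim (lenc (padC k C) (padx k x)) act b := by
  rcases b with (⟨p, i | a⟩ | i) | g
  · change Sum.elim (Sum.elim (lenc C x) act) id (if h : (i : ℕ) < n then
      Sum.inl (Sum.inl (Sum.inl (p, Sum.inl ⟨i, h⟩))) else Sum.inr false) =
      decide (upk k (C.inp p) = Sum.inl i)
    by_cases h : (i : ℕ) < n
    · rw [dif_pos h]
      change decide (C.inp p = Sum.inl ⟨i, h⟩) = _
      rw [decide_eq_decide]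
      constructor
      · intro h1
        rw [h1]
        rfl
      · intro h1
        have h2 : upk k (Sum.inl ⟨i, h⟩ : Arc n m) = Sum.inl i := rfl
        exact upk_inj k (h1.trans h2.symm)
    · rw [dif_neg h]
      change false = _
      symm
      rw [decide_eq_false_iff_not]
      intro h1
      rcases hp : C.inp p with j | a
      · rw [hp] at h1
        simp only [upk, Sum.inl.injEq] at h1
        apply h
        rw [← h1]
        exact j.isLt
      · rw [hp] at h1
        simp [upk] at h1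
  · change decide (C.inp p = Sum.inr a) = decide (upk k (C.inp p) = Sum.inr a)
    rw [decide_eq_decide]
    constructor
    · intro h1
      rw [h1]
      rfl
    · intro h1
      have h2 : upk k (Sum.inr a : Arc n m) = Sum.inr a := rfl
      exact upk_inj k (h1.trans h2.symm)
  · change Sum.elim (Sum.elim (lenc C x) act) id (if h : (i : ℕ) < n then
      Sum.inl (Sum.inl (Sum.inr ⟨i, h⟩)) else Sum.inr false) = padx k x i
    unfold padx
    by_cases h : (i : ℕ) < n
    · rw [dif_pos h, dif_pos h]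
      rfl
    · rw [dif_neg h, dif_neg h]
      rfl
  · rfl

/-- The labelling of the padded circuit. -/
def padv (k : ℕ) (x : Fin n → Bool) (v : Arc n m → Bool) : Arc (n + k) m → Bool
  | Sum.inl i => padx k x i
  | Sum.inr a => v (Sum.inr a)

theorem padv_upk (k : ℕ) (x : Fin n → Bool) {v : Arc n m → Bool} (h : ∀ i, v (Sum.inl i) = x i)
    (a : Arc n m) : padv k x v (upk k a) = v a := by
  rcases a with i | a
  · change padx k x (Fin.castAdd k i) = _
    rw [padx_castAdd, h]
  · rfl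

theorem Marked.unpad {k : ℕ} {C : CompCircuit n m} {x : Fin n → Bool} {act : Fin m → Bool} {q : ℕ}
    {y : Bool × Arc (n + k) m → Bool} (h : Marked (padC k C) (padx k x) act q y) :
    Marked C x act q (fun p => y (p.1, upk k p.2)) := by
  refine ⟨fun v hv r a ha => ?_, ?_⟩
  · have h1 : (padC k C).IsVal (padx k x) (padv k x v) := by
      refine ⟨fun i => rfl, fun g => ?_, fun g => ?_⟩
      · change v (Sum.inr (g, false)) = (padv k x v (upk k (C.inp (g, false))) &&
          padv k x v (upk k (C.inp (g, true))))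
        rw [padv_upk k x hv.source, padv_upk k x hv.source]
        exact hv.conj g
      · change v (Sum.inr (g, true)) = (padv k x v (upk k (C.inp (g, false))) ||
          padv k x v (upk k (C.inp (g, true))))
        rw [padv_upk k x hv.source, padv_upk k x hv.source]
        exact hv.disj g
    have h2 := h.sound _ h1 r (upk k a) ha
    rwa [padv_upk k x hv.source] at h2
  · obtain ⟨K, hK1, hK2⟩ := h.complete
    refine ⟨K, hK1, fun r w hw a ha => ?_⟩
    have h1 : IsCut (padC k C) K (!r) (padx k x) (padv k x w) := by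
      refine ⟨fun i => rfl, fun a => ?_⟩
      change w (Sum.inr a) = comb a.2
        (if K (a.1, false) then !r else padv k x w (upk k (C.inp (a.1, false))))
        (if K (a.1, true) then !r else padv k x w (upk k (C.inp (a.1, true))))
      rw [padv_upk k x hw.src, padv_upk k x hw.src]
      exact hw.opn a
    exact hK2 r _ h1 (upk k a) (by rw [padv_upk k x hw.src]; exact ha)

/-- Interface of the random cuts, union form. -/
theorem splusAct : ∃ c : ℕ, ∀ n m q l : ℕ, 1 ≤ l → 1 ≤ q → q ≤ 2 ^ l → n + 4 * m + 1 ≤ 2 ^ l →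
    ∃ f : ((LBit n m ⊕ Fin m) → Bool) → Bool × Arc n m → Bool, Cp c l q f ∧
      ∀ (C : CompCircuit n m) (x : Fin n → Bool) (act : Fin m → Bool),
        Marked C x act q (f (Sum.elim (lenc C x) act)) := by
  obtain ⟨c, hc⟩ := splusAct0
  refine ⟨c * 2 ^ c + 2 * c + 8, fun n m q l hl hq hql hN => ?_⟩
  obtain ⟨f, ⟨d, hd, hf⟩, hM⟩ := hc (n + 2 ^ l) m q (l + 1) (by omega) hq (by omega) (by
    rw [pow_succ]
    omega)
  have h1 := lev_subst (padφ n m (2 ^ l)) hf
  have h01 : 8 * l ≤ (c * 2 ^ c + 2 * c + 8) * l := Nat.mul_le_mul_right _ (by omega)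
  have h02 : c * (l + 1) ≤ (c * 2 ^ c + 2 * c + 8) * l := by
    calc c * (l + 1) ≤ c * (2 * l) := Nat.mul_le_mul_left _ (by omega)
      _ = 2 * c * l := by ring
      _ ≤ _ := Nat.mul_le_mul_right _ (by omega)
  have hcd : Fintype.card (Bool × Arc n m) ≤ 2 ^ ((c * 2 ^ c + 2 * c + 8) * l) := by
    rw [Fintype.card_prod, Fintype.card_bool, card_arc]
    calc 2 * (n + 2 * m) ≤ 2 ^ 1 * 2 ^ l := Nat.mul_le_mul (by norm_num) (by omega)
      _ = 2 ^ (1 + l) := by rw [pow_add]
      _ ≤ _ := Nat.pow_le_pow_right (by norm_num) (by omega)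
  have h2 := lev_sel (lev_mono (W' := 2 ^ ((c * 2 ^ c + 2 * c + 8) * l))
    (Nat.pow_le_pow_right (by norm_num) h02) h1) hcd
    (fun p : Bool × Arc n m => (p.1, upk (2 ^ l) p.2))
  refine ⟨_, ⟨d + 1, ?_, h2⟩, fun C x act => ?_⟩
  · set e := c * 2 ^ c + 2 * c + 8 with he
    have h3 : c * (l + 1) ^ c * q ≤ c * 2 ^ c * (l ^ e * q) := by
      calc c * (l + 1) ^ c * q ≤ c * (2 * l) ^ c * q :=
            Nat.mul_le_mul_right _ (Nat.mul_le_mul_left _ (Nat.pow_le_pow_left (by omega) _))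
        _ = c * 2 ^ c * (l ^ c * q) := by rw [mul_pow]; ring
        _ ≤ _ := Nat.mul_le_mul_left _ (Nat.mul_le_mul_right _
          (Nat.pow_le_pow_right hl (by omega)))
    have h4 : 1 ≤ l ^ e * q := Nat.mul_pos (Nat.pow_pos (by omega)) hq
    have h5 : e * l ^ e * q = c * 2 ^ c * (l ^ e * q) + (2 * c + 8) * (l ^ e * q) := by
      rw [mul_assoc]
      nth_rewrite 1 [he]
      ring
    rw [h5]
    have h6 : 8 * (l ^ e * q) ≤ (2 * c + 8) * (l ^ e * q) := Nat.mul_le_mul_right _ (by omega)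
    omega
  · have h3 : (fun b => Sum.elim (Sum.elim (lenc C x) act) id (padφ n m (2 ^ l) b)) =
        Sum.elim (lenc (padC (2 ^ l) C) (padx (2 ^ l) x)) act := by
      funext b
      exact padφ_spec (2 ^ l) C x act b
    have h4 := (hM (padC (2 ^ l) C) (padx (2 ^ l) x) act).unpad
    rw [← h3] at h4
    exact h4

end Pool.Agent.LibCCQ
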