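import Pool.Agent.LibCCQ.Calc

/-!
Substitution of constants for input bits; circuits as families of levels.
-/

namespace Pool.Agent.LibCCQ

open Pool.Agent.LibCC Pool.Agent.LibCC89

variable {α β γ δ ν μ : Type}

/-- Substitution of nodes or constants for the nodes read by a gate. -/
def gsub (φ : ν → μ ⊕ Bool) : BGate ν → BGate μ
  | .const b => .const b
  | .wire a => match φ a with
    | Sum.inl a => .wire a
    | Sum.inr b => .const b
  | .neg a => match φ a with
    | Sum.inl a => .neg a
    | Sum.inr b => .const (!b)
  | .and a b => match φ a, φ b with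
    | Sum.inl a, Sum.inl b => .and a b
    | Sum.inl a, Sum.inr b => if b then .wire a else .const false
    | Sum.inr a, Sum.inl b => if a then .wire b else .const false
    | Sum.inr a, Sum.inr b => .const (a && b)
  | .or a b => match φ a, φ b with
    | Sum.inl a, Sum.inl b => .or a b
    | Sum.inl a, Sum.inr b => if b then .const true else .wire a
    | Sum.inr a, Sum.inl b => if a then .const true else .wire b
    | Sum.inr a, Sum.inr b => .const (a || b)

theorem gsub_eval (φ : ν → μ ⊕ Bool) (G : BGate ν) (y : μ → Bool) :
    (gsub φ G).eval y = G.eval (fun a => Sum.elim y id (φ a)) := by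
  cases G with
  | const b => rfl
  | wire a => rcases h : φ a with a' | b <;> simp [gsub, BGate.eval, h]
  | neg a => rcases h : φ a with a' | b <;> simp [gsub, BGate.eval, h]
  | and a b =>
    rcases h : φ a with a' | a' <;> rcases h' : φ b with b' | b' <;>
      simp only [gsub, BGate.eval, h, h', Sum.elim_inl, Sum.elim_inr, id_eq]
    · cases b' <;> simp [BGate.eval]
    · cases a' <;> simp [BGate.eval]
  | or a b =>
    rcases h : φ a with a' | a' <;> rcases h' : φ b with b' | b' <;>
      simp only [gsub, BGate.eval, h, h', Sum.elim_inl, Sum.elim_inr, id_eq]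
    · cases b' <;> simp [BGate.eval]
    · cases a' <;> simp [BGate.eval]

/-- Some input bits are replaced by constants. -/
theorem lev_subst {α' : Type} {W d : ℕ} (φ : α' → α ⊕ Bool) {g : (α' → Bool) → γ → Bool}
    (h : Lev α' W d γ g) :
    Lev α W d γ (fun x => g (fun a => Sum.elim x id (φ a))) := by
  induction h with
  | base => exact Lev.base
  | @step d β f h γ _ hγ G ih =>
    have h1 := Lev.step ih γ hγ (fun c => gsub (fun s : α' ⊕ β => match s with
      | Sum.inl a => Sum.map Sum.inl id (φ a)
      | Sum.inr b => Sum.inl (Sum.inr b)) (G c))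
    refine Lev.congr h1 (fun x c => ?_)
    rw [gsub_eval]
    refine congrArg (fun y => BGate.eval y (G c)) ?_
    funext s
    rcases s with a | b
    · rcases h : φ a with a' | b' <;> simp [h]
    · rfl

/-- All gates of a level of a circuit. -/
theorem lev_of_circuit {W : ℕ} (B : BCircuit α W) (k : ℕ) :
    Lev α W (k + 1) (Fin W) (fun x => B.level x (k + 1)) := by
  induction k with
  | zero =>
    have h1 := Lev.step (Lev.base (α := α) (W := W)) (Fin W) (by simp)
      (fun i => gsub (fun s : α ⊕ Fin W => match s with
        | Sum.inl a => Sum.inl (Sum.inl a)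
        | Sum.inr _ => Sum.inr false) (B.gate 0 i))
    refine Lev.congr h1 (fun x i => ?_)
    rw [gsub_eval]
    refine congrArg (fun y => BGate.eval y (B.gate 0 i)) ?_
    funext s
    rcases s with a | b <;> rfl
  | succ k ih => exact Lev.step ih (Fin W) (by simp) (B.gate (k + 1))

/-- One gate of a circuit. -/
theorem lev_out {W : ℕ} (B : BCircuit α W) (k : ℕ) (o : Fin W) :
    Lev α W (k + 2) Unit (fun x _ => B.level x (k + 1) o) := by
  have hW : 1 ≤ W := by
    have := o.isLt
    omega
  exact lev_sel (lev_of_circuit B k) (by simpa using hW) (fun _ => o)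

end Pool.Agent.LibCCQ
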